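import Mathlib

set_option autoImplicit false

open Filter Topology Finset

namespace Pool.Agent.Lib.MP_0e8110_lc

/-- `ee x = exp (2 π i x)`. -/
noncomputable def ee (x : ℝ) : ℂ := Complex.exp ((2 * Real.pi * x : ℝ) * Complex.I)

lemma ee_add (x y : ℝ) : ee (x + y) = ee x * ee y := by
  unfold ee
  rw [← Complex.exp_add]
  congr 1
  push_cast
  ring

lemma ee_zero : ee 0 = 1 := by simp [ee]

lemma norm_ee (x : ℝ) : ‖ee x‖ = 1 := by
  unfold ee
  exact Complex.norm_exp_ofReal_mul_I _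

lemma ee_int (k : ℤ) : ee k = 1 := by
  unfold ee
  rw [Complex.exp_eq_one_iff]
  exact ⟨k, by push_cast; ring⟩

lemma ee_sum {ι : Type*} (s : Finset ι) (f : ι → ℝ) : ee (∑ i ∈ s, f i) = ∏ i ∈ s, ee (f i) := by
  classical
  induction s using Finset.induction_on with
  | empty => simp [ee_zero]
  | insert a s ha ih => rw [Finset.sum_insert ha, Finset.prod_insert ha, ee_add, ih]

lemma ee_nat_mul (k : ℕ) (x : ℝ) : ee (k * x) = ee x ^ k := by
  unfold ee
  rw [← Complex.exp_nat_mul]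
  congr 1
  push_cast
  ring

lemma ee_neg (x : ℝ) : ee (-x) = (starRingEnd ℂ) (ee x) := by
  unfold ee
  rw [← Complex.exp_conj, map_mul, Complex.conj_ofReal, Complex.conj_I]
  congr 1
  push_cast
  ring

lemma ee_eq_one_iff (x : ℝ) : ee x = 1 ↔ ∃ k : ℤ, x = k := by
  unfold ee
  rw [Complex.exp_eq_one_iff]
  constructor
  · rintro ⟨k, hk⟩
    refine ⟨k, ?_⟩
    have h1 : ((2 * Real.pi * x : ℝ) : ℂ) * Complex.I = ((2 * Real.pi * k : ℝ) : ℂ) * Complex.I := by
      rw [hk]; push_cast; ring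
    have h2 := mul_right_cancel₀ Complex.I_ne_zero h1
    have h3 : (2 * Real.pi * x : ℝ) = 2 * Real.pi * k := by exact_mod_cast h2
    have hpi := Real.pi_pos
    nlinarith [mul_left_cancel₀ (by positivity : (2 * Real.pi : ℝ) ≠ 0) h3]
  · rintro ⟨k, hk⟩
    exact ⟨k, by rw [hk]; push_cast; ring⟩

/-- distance to the nearest integer is controlled by `‖ee x - 1‖`. -/
lemma exists_int_near (x : ℝ) : ∃ k : ℤ, 4 * |x - k| ≤ ‖ee x - 1‖ := by
  refine ⟨round x, ?_⟩
  set δ : ℝ := x - round x with hδ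
  have hδ2 : |δ| ≤ 1 / 2 := abs_sub_round x
  have hx : ee x = ee δ := by
    have : x = δ + round x := by rw [hδ]; ring
    rw [this, ee_add, ee_int, mul_one]
  rw [hx]
  have h1 : ‖ee δ - 1‖ = 2 * |Real.sin (Real.pi * δ)| := by
    unfold ee
    have := Complex.norm_exp_I_mul_ofReal_sub_one (2 * Real.pi * δ)
    rw [mul_comm (((2 * Real.pi * δ : ℝ)) : ℂ) Complex.I]
    rw [this]
    rw [norm_mul]
    simp only [Real.norm_eq_abs, abs_two]
    congr 3
    ring
  rw [h1]
  have h2 : 2 * |δ| ≤ |Real.sin (Real.pi * δ)| := by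
    have h3 : |Real.sin (Real.pi * δ)| = |Real.sin (Real.pi * |δ|)| := by
      rcases abs_cases δ with h | h
      · rw [h.1]
      · rw [h.1, mul_neg, Real.sin_neg, abs_neg]
    rw [h3]
    have hpi := Real.pi_pos
    have h4 : 2 / Real.pi * (Real.pi * |δ|) ≤ Real.sin (Real.pi * |δ|) := by
      apply Real.mul_le_sin
      · positivity
      · nlinarith [abs_nonneg δ]
    have h5 : 2 / Real.pi * (Real.pi * |δ|) = 2 * |δ| := by
      field_simp
    rw [h5] at h4
    exact h4.trans (le_abs_self _)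
  linarith

/-- bounded geometric sums -/
lemma norm_geom_le (z : ℂ) (hz : ‖z‖ = 1) (hz1 : z ≠ 1) (K : ℕ) :
    ‖∑ k ∈ range K, z ^ k‖ ≤ 2 / ‖z - 1‖ := by
  rw [geom_sum_eq hz1]
  rw [norm_div]
  have hpos : 0 < ‖z - 1‖ := norm_pos_iff.mpr (sub_ne_zero.mpr hz1)
  apply div_le_div_of_nonneg_right _ hpos.le
  calc ‖z ^ K - 1‖ ≤ ‖z ^ K‖ + ‖(1:ℂ)‖ := norm_sub_le _ _
    _ = 2 := by rw [norm_pow, hz]; norm_num

lemma avg_tendsto (α θ S τ : ℝ) (h0 : α = 0 → ee θ = 1) (h1 : α ≠ 0 → ee (τ * α) ≠ 1) :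
    Tendsto (fun K : ℕ => (∑ k ∈ range K, ee (α * (S + k * τ) + θ)) / (K : ℂ)) atTop
      (𝓝 (if α = 0 then 1 else 0)) := by
  by_cases hα : α = 0
  · rw [if_pos hα]
    have hterm : ∀ k : ℕ, ee (α * (S + k * τ) + θ) = 1 := by
      intro k; rw [hα, zero_mul, zero_add]; exact h0 hα
    simp only [hterm, sum_const, card_range, nsmul_eq_mul, mul_one]
    apply Tendsto.congr' _ tendsto_const_nhds
    filter_upwards [eventually_gt_atTop 0] with K hK
    rw [div_self]
    exact_mod_cast hK.ne'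
  · rw [if_neg hα]
    have hz1 := h1 hα
    set z := ee (τ * α) with hz
    have hterm : ∀ k : ℕ, ee (α * (S + k * τ) + θ) = ee (α * S + θ) * z ^ k := by
      intro k
      rw [hz, ← ee_nat_mul, ← ee_add]
      congr 1
      ring
    simp only [hterm, ← mul_sum]
    rw [tendsto_zero_iff_norm_tendsto_zero]
    have hb : ∀ K : ℕ, ‖ee (α * S + θ) * (∑ k ∈ range K, z ^ k) / (K : ℂ)‖ ≤ (2 / ‖z - 1‖) / K := by
      intro K
      rw [norm_div, norm_mul, norm_ee, one_mul, Complex.norm_natCast]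
      apply div_le_div_of_nonneg_right _ (Nat.cast_nonneg K)
      exact norm_geom_le z (norm_ee _) hz1 K
    apply squeeze_zero (fun K => norm_nonneg _) hb
    exact tendsto_const_div_atTop_nhds_zero_nat _

lemma exists_step {ι : Type*} (P : Finset ι) (α : ι → ℝ) :
    ∃ τ : ℝ, 0 < τ ∧ ∀ p ∈ P, α p ≠ 0 → ee (τ * α p) ≠ 1 := by
  obtain ⟨B, hBpos, hB⟩ : ∃ B : ℝ, 0 < B ∧ ∀ p ∈ P, |α p| < B := by
    refine ⟨1 + ∑ p ∈ P, |α p|, ?_, ?_⟩
    · have : 0 ≤ ∑ p ∈ P, |α p| := Finset.sum_nonneg (fun _ _ => abs_nonneg _)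
      linarith
    · intro p hp
      have : |α p| ≤ ∑ p ∈ P, |α p| :=
        Finset.single_le_sum (f := fun p => |α p|) (fun _ _ => abs_nonneg _) hp
      linarith
  have hB1 : 0 < 1 / B := by positivity
  refine ⟨1 / B, hB1, ?_⟩
  intro p hp hne heq
  rw [ee_eq_one_iff] at heq
  obtain ⟨k, hk⟩ := heq
  have h1 : |(k : ℝ)| < 1 := by
    rw [← hk, abs_mul, abs_of_pos hB1]
    rw [one_div, inv_mul_lt_iff₀ hBpos]
    linarith [hB p hp]
  have h2 : k = 0 := by
    have : |k| < 1 := by exact_mod_cast h1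
    exact Int.abs_lt_one_iff.mp this
  rw [h2, Int.cast_zero, mul_eq_zero] at hk
  rcases hk with hk | hk
  · linarith
  · exact hne hk

section kron

variable {n : ℕ}

/-- integer frequency attached to an index `p`. -/
def freq (p : Fin n → ℕ × ℕ) (i : Fin n) : ℤ := ((p i).1 : ℤ) - ((p i).2 : ℤ)

noncomputable def KK (t : Fin n → Finset (ℕ × ℕ)) (x : Fin n → ℝ) : ℂ :=
  ∏ i, ∑ q ∈ t i, ee ((((q.1 : ℤ) - (q.2 : ℤ) : ℤ) : ℝ) * x i)

lemma KK_eq (t : Fin n → Finset (ℕ × ℕ)) (x : Fin n → ℝ) :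
    KK t x = ∑ p ∈ Fintype.piFinset t, ee (∑ i, (freq p i : ℝ) * x i) := by
  unfold KK
  rw [Finset.prod_univ_sum]
  apply Finset.sum_congr rfl
  intro p _
  rw [ee_sum]
  rfl

/-- The number of indices with vanishing frequency against `D`. -/
noncomputable def Tot (t : Fin n → Finset (ℕ × ℕ)) (D : Fin n → ℝ) : ℕ :=
  ((Fintype.piFinset t).filter (fun p => ∑ i, (freq p i : ℝ) * D i = 0)).card

lemma KK_avg (t : Fin n → Finset (ℕ × ℕ)) (D w : Fin n → ℝ) (S τ : ℝ)
    (hw : ∀ m : Fin n → ℤ, ∑ i, (m i : ℝ) * D i = 0 → ∃ k : ℤ, ∑ i, (m i : ℝ) * w i = k)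
    (hτ : ∀ p ∈ Fintype.piFinset t, ∑ i, (freq p i : ℝ) * D i ≠ 0 →
      ee (τ * ∑ i, (freq p i : ℝ) * D i) ≠ 1) :
    Tendsto (fun K : ℕ => (∑ k ∈ range K, KK t (fun i => (S + k * τ) * D i + w i)) / (K : ℂ)) atTop
      (𝓝 (Tot t D : ℂ)) := by
  have h1 : ∀ p ∈ Fintype.piFinset t, Tendsto (fun K : ℕ => (∑ k ∈ range K,
      ee ((∑ i, (freq p i : ℝ) * D i) * (S + k * τ) + ∑ i, (freq p i : ℝ) * w i)) / (K : ℂ)) atTop
      (𝓝 (if ∑ i, (freq p i : ℝ) * D i = 0 then 1 else 0)) := by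
    intro p hp
    apply avg_tendsto
    · intro h
      obtain ⟨k, hk⟩ := hw _ h
      rw [hk]; exact ee_int k
    · exact hτ p hp
  have h2 := tendsto_finsetSum _ h1
  have h3 : (∑ p ∈ Fintype.piFinset t, (if ∑ i, (freq p i : ℝ) * D i = 0 then (1:ℂ) else 0)) =
      (Tot t D : ℂ) := by
    unfold Tot
    rw [Finset.sum_boole]
  rw [h3] at h2
  refine h2.congr ?_
  intro K
  rw [← Finset.sum_div, Finset.sum_comm]
  congr 1
  apply Finset.sum_congr rfl
  intro k _
  rw [KK_eq]
  apply Finset.sum_congr rfl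
  intro p _
  congr 1
  rw [Finset.sum_mul, ← Finset.sum_add_distrib]
  apply Finset.sum_congr rfl
  intro i _
  ring

def full (N : ℕ) : Fin n → Finset (ℕ × ℕ) := fun _ => range N ×ˢ range N

/-- Fejer factor -/
noncomputable def kap (N : ℕ) (x : ℝ) : ℝ := ‖∑ j ∈ range N, ee (j * x)‖ ^ 2

lemma kap_nonneg (N : ℕ) (x : ℝ) : 0 ≤ kap N x := by unfold kap; positivity

lemma kap_eq (N : ℕ) (x : ℝ) :
    ∑ q ∈ range N ×ˢ range N, ee ((((q.1 : ℤ) - (q.2 : ℤ) : ℤ) : ℝ) * x) = (kap N x : ℂ) := by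
  rw [Finset.sum_product]
  unfold kap
  push_cast
  rw [← Complex.mul_conj', map_sum, Finset.sum_mul_sum]
  apply Finset.sum_congr rfl
  intro j _
  apply Finset.sum_congr rfl
  intro l _
  rw [← ee_neg, ← ee_add]
  congr 1
  ring

lemma kap_le (N : ℕ) (x η : ℝ) (hη : 0 < η) (hx : η ≤ ‖ee x - 1‖) : kap N x ≤ (2 / η) ^ 2 := by
  unfold kap
  have hne : ee x ≠ 1 := by
    intro h; rw [h, sub_self, norm_zero] at hx; linarith
  have h1 : ‖∑ j ∈ range N, ee (j * x)‖ ≤ 2 / η := by
    simp only [ee_nat_mul]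
    refine (norm_geom_le (ee x) (norm_ee x) hne N).trans ?_
    exact div_le_div_of_nonneg_left (by norm_num) hη hx
  gcongr

lemma KK_full (N : ℕ) (x : Fin n → ℝ) : KK (full N) x = ((∏ i, kap N (x i) : ℝ) : ℂ) := by
  unfold KK full
  push_cast
  apply Finset.prod_congr rfl
  intro i _
  have := kap_eq N (x i)
  push_cast at this ⊢
  exact this

lemma KK_upd (N : ℕ) (x : Fin n → ℝ) (i : Fin n) :
    KK (Function.update (full N) i {(0, 0)}) x =
      ((∏ j ∈ univ.erase i, kap N (x j) : ℝ) : ℂ) := by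
  unfold KK
  rw [← Finset.mul_prod_erase univ _ (mem_univ i)]
  have h1 : (∑ q ∈ Function.update (full N) i {(0, 0)} i,
      ee ((((q.1 : ℤ) - (q.2 : ℤ) : ℤ) : ℝ) * x i)) = 1 := by
    rw [Function.update_self]
    simp [ee_zero]
  rw [h1, one_mul]
  push_cast
  apply Finset.prod_congr rfl
  intro j hj
  rw [Function.update_of_ne (Finset.ne_of_mem_erase hj)]
  have := kap_eq N (x j)
  unfold full
  push_cast at this ⊢
  exact this

lemma Tot_upd (N : ℕ) (D : Fin n → ℝ) (i : Fin n) :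
    N * Tot (Function.update (full N) i {(0, 0)}) D ≤ Tot (full N) D := by
  classical
  unfold Tot
  rw [← Finset.card_range N, ← Finset.card_product, Finset.card_range]
  apply Finset.card_le_card_of_injOn (fun r : ℕ × (Fin n → ℕ × ℕ) => Function.update r.2 i (r.1, r.1))
  · rintro ⟨j, p⟩ hr
    simp only [Finset.coe_product, Set.mem_prod, Finset.mem_coe, Finset.mem_range,
      Finset.mem_filter, Fintype.mem_piFinset] at hr
    obtain ⟨hj, hp, hp0⟩ := hr
    simp only [Finset.mem_coe, Finset.mem_filter, Fintype.mem_piFinset]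
    refine ⟨?_, ?_⟩
    · intro a
      by_cases ha : a = i
      · subst ha
        rw [Function.update_self]
        simp [full, hj]
      · rw [Function.update_of_ne ha]
        have := hp a
        rwa [Function.update_of_ne ha] at this
    · rw [← hp0]
      apply Finset.sum_congr rfl
      intro a _
      by_cases ha : a = i
      · subst ha
        have h1 := hp a
        rw [Function.update_self, Finset.mem_singleton] at h1
        simp [freq, h1]
      · simp only [freq]
        rw [Function.update_of_ne ha]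
  · rintro ⟨j, p⟩ hr ⟨j', p'⟩ hr' heq
    simp only [Finset.coe_product, Set.mem_prod, Finset.mem_coe, Finset.mem_range,
      Finset.mem_filter, Fintype.mem_piFinset] at hr hr'
    obtain ⟨hj, hp, hp0⟩ := hr
    obtain ⟨hj', hp', hp0'⟩ := hr'
    simp only at heq
    have h1 : j = j' := by
      have := congrFun heq i
      simp only [Function.update_self] at this
      exact (Prod.mk.inj this).1
    subst h1
    have h2 : p = p' := by
      funext a
      by_cases ha : a = i
      · subst ha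
        have h3 := hp a
        have h4 := hp' a
        rw [Function.update_self, Finset.mem_singleton] at h3 h4
        rw [h3, h4]
      · have := congrFun heq a
        rwa [Function.update_of_ne ha, Function.update_of_ne ha] at this
    rw [h2]

lemma Tot_full_pos (N : ℕ) (hN : 0 < N) (D : Fin n → ℝ) : 0 < Tot (full N) D := by
  unfold Tot
  rw [Finset.card_pos]
  refine ⟨fun _ => (0, 0), ?_⟩
  simp [full, freq, hN]

/-- Kronecker's theorem, first form. -/
theorem kronecker_aux (D w : Fin n → ℝ)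
    (hw : ∀ m : Fin n → ℤ, ∑ i, (m i : ℝ) * D i = 0 → ∃ k : ℤ, ∑ i, (m i : ℝ) * w i = k)
    (η : ℝ) (hη : 0 < η) (S : ℝ) :
    ∃ s : ℝ, S ≤ s ∧ ∀ i, ‖ee (s * D i + w i) - 1‖ < η := by
  classical
  by_contra hcon
  push Not at hcon
  -- constant
  set c : ℝ := (2 / η) ^ 2 with hc
  have hcpos : 0 < c := by positivity
  obtain ⟨N, hN⟩ := exists_nat_gt (c * n)
  have hNpos : 0 < N := by
    have : (0:ℝ) ≤ c * n := by positivity
    exact_mod_cast this.trans_lt hN
  -- a small step
  obtain ⟨τ, hτ0, hτ⟩ : ∃ τ : ℝ, 0 < τ ∧ ∀ p ∈ Fintype.piFinset (full (n := n) N),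
      ∑ i, (freq p i : ℝ) * D i ≠ 0 → ee (τ * ∑ i, (freq p i : ℝ) * D i) ≠ 1 :=
    exists_step (Fintype.piFinset (full (n := n) N)) (fun p => ∑ i, (freq p i : ℝ) * D i)
  -- restriction of the non-resonance to updated index sets
  have hτ' : ∀ i : Fin n, ∀ p ∈ Fintype.piFinset (Function.update (full (n := n) N) i {(0, 0)}),
      ∑ i, (freq p i : ℝ) * D i ≠ 0 → ee (τ * ∑ i, (freq p i : ℝ) * D i) ≠ 1 := by
    intro i p hp
    apply hτ
    rw [Fintype.mem_piFinset] at hp ⊢
    intro a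
    by_cases ha : a = i
    · subst ha
      have := hp a
      rw [Function.update_self, Finset.mem_singleton] at this
      rw [this]
      simp [full, hNpos]
    · have := hp a
      rwa [Function.update_of_ne ha] at this
  have hA := KK_avg (full N) D w S τ hw hτ
  have hAi := fun i => KK_avg (Function.update (full N) i {(0, 0)}) D w S τ hw (hτ' i)
  -- real parts
  have hAr : Tendsto (fun K : ℕ => (∑ k ∈ range K, ∏ i, kap N ((S + k * τ) * D i + w i)) / (K : ℝ))
      atTop (𝓝 (Tot (full N) D : ℝ)) := by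
    have h := (Complex.continuous_re.tendsto _).comp hA
    simp only [Complex.natCast_re] at h
    refine h.congr ?_
    intro K
    simp only [Function.comp_apply, KK_full]
    rw [← Complex.ofReal_sum, ← Complex.ofReal_natCast, ← Complex.ofReal_div, Complex.ofReal_re]
  have hAir : ∀ i, Tendsto (fun K : ℕ => (∑ k ∈ range K,
      ∏ j ∈ univ.erase i, kap N ((S + k * τ) * D j + w j)) / (K : ℝ))
      atTop (𝓝 (Tot (Function.update (full N) i {(0, 0)}) D : ℝ)) := by
    intro i
    have h := (Complex.continuous_re.tendsto _).comp (hAi i)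
    simp only [Complex.natCast_re] at h
    refine h.congr ?_
    intro K
    simp only [Function.comp_apply, KK_upd]
    rw [← Complex.ofReal_sum, ← Complex.ofReal_natCast, ← Complex.ofReal_div, Complex.ofReal_re]
  have hsum := (tendsto_finsetSum univ (fun i _ => hAir i)).const_mul c
  have hineq : (Tot (full N) D : ℝ) ≤
      c * ∑ i, (Tot (Function.update (full N) i {(0, 0)}) D : ℝ) := by
    refine le_of_tendsto_of_tendsto' hAr hsum ?_
    intro K
    rw [← Finset.sum_div, ← mul_div_assoc]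
    apply div_le_div_of_nonneg_right _ (Nat.cast_nonneg K)
    rw [Finset.sum_comm, Finset.mul_sum]
    apply Finset.sum_le_sum
    intro k _
    obtain ⟨i, hi⟩ := hcon (S + k * τ) (by
      have : (0:ℝ) ≤ k * τ := by positivity
      linarith)
    rw [← Finset.mul_prod_erase univ (fun i => kap N ((S + k * τ) * D i + w i)) (mem_univ i)]
    have h1 := kap_le N _ η hη hi
    have h2 : 0 ≤ ∏ j ∈ univ.erase i, kap N ((S + k * τ) * D j + w j) :=
      Finset.prod_nonneg (fun _ _ => kap_nonneg _ _)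
    calc kap N ((S + k * τ) * D i + w i) * ∏ j ∈ univ.erase i, kap N ((S + k * τ) * D j + w j)
        ≤ c * ∏ j ∈ univ.erase i, kap N ((S + k * τ) * D j + w j) :=
          mul_le_mul_of_nonneg_right h1 h2
      _ ≤ c * ∑ i, ∏ j ∈ univ.erase i, kap N ((S + k * τ) * D j + w j) := by
          apply mul_le_mul_of_nonneg_left _ hcpos.le
          exact Finset.single_le_sum
            (f := fun i => ∏ j ∈ univ.erase i, kap N ((S + k * τ) * D j + w j))
            (fun _ _ => Finset.prod_nonneg (fun _ _ => kap_nonneg _ _)) (mem_univ i)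
  have hbound : ∀ i, (N : ℝ) * (Tot (Function.update (full N) i {(0, 0)}) D : ℝ) ≤
      (Tot (full N) D : ℝ) := by
    intro i
    exact_mod_cast Tot_upd N D i
  have hTpos : (0:ℝ) < Tot (full N) D := by exact_mod_cast Tot_full_pos N hNpos D
  have h5 : (N:ℝ) * (Tot (full N) D : ℝ) ≤ c * ∑ _i : Fin n, (Tot (full N) D : ℝ) := by
    calc (N:ℝ) * (Tot (full N) D : ℝ)
        ≤ N * (c * ∑ i, (Tot (Function.update (full N) i {(0, 0)}) D : ℝ)) :=
          mul_le_mul_of_nonneg_left hineq (Nat.cast_nonneg N)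
      _ = c * ∑ i, N * (Tot (Function.update (full N) i {(0, 0)}) D : ℝ) := by
          rw [Finset.mul_sum, Finset.mul_sum, Finset.mul_sum]
          apply Finset.sum_congr rfl
          intro i _
          ring
      _ ≤ c * ∑ _i : Fin n, (Tot (full N) D : ℝ) := by
          apply mul_le_mul_of_nonneg_left _ hcpos.le
          exact Finset.sum_le_sum (fun i _ => hbound i)
  rw [Finset.sum_const, Finset.card_univ, Fintype.card_fin, nsmul_eq_mul, ← mul_assoc] at h5
  have h6 := le_of_mul_le_mul_right h5 hTpos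
  linarith

/-- **Kronecker's theorem** (flow form). -/
theorem kronecker (D w : Fin n → ℝ)
    (hw : ∀ m : Fin n → ℤ, ∑ i, (m i : ℝ) * D i = 0 → ∃ k : ℤ, ∑ i, (m i : ℝ) * w i = k)
    (ε : ℝ) (hε : 0 < ε) (S : ℝ) :
    ∃ s : ℝ, S ≤ s ∧ ∃ z : Fin n → ℤ, ∀ i, |s * D i + w i - z i| ≤ ε := by
  obtain ⟨s, hs, h⟩ := kronecker_aux D w hw (4 * ε) (by positivity) S
  refine ⟨s, hs, ?_⟩
  choose z hz using fun i => exists_int_near (s * D i + w i)
  refine ⟨z, fun i => ?_⟩
  have := hz i
  have := h i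
  linarith

end kron

end Pool.Agent.Lib.MP_0e8110_lc
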