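import Mathlib
import Pool.Agent.Lib.MP_0e8110_lc.Kronecker

set_option autoImplicit false

open Filter Topology

namespace Pool.Agent.Lib.MP_0e8110_lc

/-- Euclidean `n`-space. -/
abbrev EE (n : ℕ) := EuclideanSpace ℝ (Fin n)

/-- the integer linear functional `x ↦ ∑ m i * x i`. -/
noncomputable def dz {n : ℕ} (m : Fin n → ℤ) : EE n →L[ℝ] ℝ :=
  ∑ i, (m i : ℝ) • EuclideanSpace.proj i

lemma dz_apply {n : ℕ} (m : Fin n → ℤ) (x : EE n) : dz m x = ∑ i, (m i : ℝ) * x i := by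
  simp [dz]

/-- integer vector as a point. -/
noncomputable def ip {n : ℕ} (z : Fin n → ℤ) : EE n := WithLp.toLp 2 (fun i => (z i : ℝ))

@[simp] lemma ip_apply {n : ℕ} (z : Fin n → ℤ) (i : Fin n) : ip z i = (z i : ℝ) := rfl

lemma dz_ip_int {n : ℕ} (m z : Fin n → ℤ) : ∃ k : ℤ, dz m (ip z) = k :=
  ⟨∑ i, m i * z i, by rw [dz_apply]; push_cast; rfl⟩

lemma norm_le_of_coord {n : ℕ} (x : EE n) (ε : ℝ) (hε : 0 ≤ ε) (h : ∀ i, |x i| ≤ ε) :
    ‖x‖ ≤ (n + 1) * ε := by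
  rw [EuclideanSpace.norm_eq]
  apply Real.sqrt_le_iff.mpr
  constructor
  · positivity
  · calc ∑ i, ‖x i‖ ^ 2 ≤ ∑ _i : Fin n, ε ^ 2 := by
          apply Finset.sum_le_sum
          intro i _
          have := h i
          rw [Real.norm_eq_abs]
          exact pow_le_pow_left₀ (abs_nonneg _) this 2
      _ = n * ε ^ 2 := by simp
      _ ≤ ((n + 1) * ε) ^ 2 := by
          have hn : (0:ℝ) ≤ n := Nat.cast_nonneg n
          nlinarith [sq_nonneg ε, mul_nonneg hn (sq_nonneg ε),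
            mul_nonneg (mul_nonneg hn hn) (sq_nonneg ε)]

lemma abs_dz_le {n : ℕ} (m : Fin n → ℤ) (x : EE n) (ε : ℝ) (h : ∀ i, |x i| ≤ ε) :
    |dz m x| ≤ (∑ i, |(m i : ℝ)|) * ε := by
  rw [dz_apply, Finset.sum_mul]
  refine (Finset.abs_sum_le_sum_abs _ _).trans ?_
  apply Finset.sum_le_sum
  intro i _
  rw [abs_mul]
  exact mul_le_mul_of_nonneg_left (h i) (abs_nonneg _)

section data

variable {n : ℕ} {ι : Type*} [Fintype ι] (a : ι → (Fin n → ℤ)) (β : ι → ℝ) (K : Set ι)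

/-- Integer points near the ray `w + ℝ≥0 D`. -/
lemma near_ray (D w : EE n)
    (hD : ∀ j, 0 ≤ dz (a j) D)
    (hw : ∀ m : Fin n → ℤ, dz m D = 0 → ∃ k : ℤ, dz m w = k)
    (hwβ : ∀ j, dz (a j) D = 0 → β j ≤ dz (a j) w)
    (ε : ℝ) (hε : 0 < ε) (S : ℝ) :
    ∃ s : ℝ, S ≤ s ∧ ∃ (z : Fin n → ℤ) (δ : EE n), ‖δ‖ ≤ ε ∧ ip z = w + s • D + δ ∧
      (∀ j, dz (a j) D = 0 → dz (a j) δ = 0) ∧ (∀ j, β j ≤ dz (a j) (ip z)) := by
  classical
  -- total size of the constraint vectors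
  obtain ⟨W, hWpos, hW⟩ : ∃ W : ℝ, 0 < W ∧ ∀ j, (∑ i, |((a j) i : ℝ)|) < W := by
    refine ⟨1 + ∑ j, ∑ i, |((a j) i : ℝ)|, ?_, ?_⟩
    · have : 0 ≤ ∑ j, ∑ i, |((a j) i : ℝ)| :=
        Finset.sum_nonneg (fun _ _ => Finset.sum_nonneg (fun _ _ => abs_nonneg _))
      linarith
    · intro j
      have : (∑ i, |((a j) i : ℝ)|) ≤ ∑ j, ∑ i, |((a j) i : ℝ)| :=
        Finset.single_le_sum (f := fun j => ∑ i, |((a j) i : ℝ)|)
          (fun _ _ => Finset.sum_nonneg (fun _ _ => abs_nonneg _)) (Finset.mem_univ j)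
      linarith
  set ε' : ℝ := min (ε / (n + 1)) (1 / (2 * W)) with hε'
  have hn1 : (0:ℝ) < n + 1 := by positivity
  have hε'pos : 0 < ε' := lt_min (by positivity) (by positivity)
  have hε'1 : (n + 1) * ε' ≤ ε := by
    have : ε' ≤ ε / (n + 1) := min_le_left _ _
    calc (n + 1) * ε' ≤ (n + 1) * (ε / (n + 1)) := by gcongr
      _ = ε := by field_simp
  have hε'2 : W * ε' ≤ 1 / 2 := by
    have : ε' ≤ 1 / (2 * W) := min_le_right _ _
    calc W * ε' ≤ W * (1 / (2 * W)) := by gcongr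
      _ = 1 / 2 := by field_simp
  -- a large enough starting time
  obtain ⟨S', hS'⟩ : ∃ S' : ℝ, ∀ s, S' ≤ s → S ≤ s ∧
      ∀ j, 0 < dz (a j) D → β j + 1 ≤ dz (a j) w + s * dz (a j) D := by
    have h1 : ∀ᶠ s : ℝ in atTop, S ≤ s ∧
        ∀ j, 0 < dz (a j) D → β j + 1 ≤ dz (a j) w + s * dz (a j) D := by
      apply (eventually_ge_atTop S).and
      rw [eventually_all]
      intro j
      by_cases hj : 0 < dz (a j) D
      · have : Tendsto (fun s : ℝ => dz (a j) w + s * dz (a j) D) atTop atTop :=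
          tendsto_atTop_add_const_left _ _ (tendsto_id.atTop_mul_const hj)
        filter_upwards [this.eventually_ge_atTop (β j + 1)] with s hs _
        exact hs
      · filter_upwards with s h
        exact absurd h hj
    obtain ⟨S', hS'⟩ := eventually_atTop.mp h1
    exact ⟨S', fun s hs => hS' s hs⟩
  obtain ⟨s, hs, z, hz⟩ := kronecker (fun i => D i) (fun i => w i) (by
    intro m hm
    have := hw m (by rw [dz_apply]; exact hm)
    obtain ⟨k, hk⟩ := this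
    exact ⟨k, by rw [← hk, dz_apply]⟩) ε' hε'pos S'
  obtain ⟨hsS, hsj⟩ := hS' s hs
  set δ : EE n := ip z - (w + s • D) with hδ
  have hδi : ∀ i, |δ i| ≤ ε' := by
    intro i
    have h1 : δ i = -(s * D i + w i - z i) := by
      rw [hδ]
      simp
      ring
    rw [h1, abs_neg]
    exact hz i
  have hzδ : ip z = w + s • D + δ := by rw [hδ]; abel
  have hdzδ : ∀ j, |dz (a j) δ| ≤ 1 / 2 := by
    intro j
    calc |dz (a j) δ| ≤ (∑ i, |((a j) i : ℝ)|) * ε' := abs_dz_le _ _ _ hδi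
      _ ≤ W * ε' := by
        apply mul_le_mul_of_nonneg_right (hW j).le hε'pos.le
      _ ≤ 1 / 2 := hε'2
  have hz0 : ∀ j, dz (a j) D = 0 → dz (a j) δ = 0 := by
    intro j hj
    obtain ⟨k, hk⟩ := hw (a j) hj
    obtain ⟨k', hk'⟩ := dz_ip_int (a j) z
    have h1 : dz (a j) δ = ((k' - k : ℤ) : ℝ) := by
      rw [hδ, map_sub, map_add, map_smul, hj, hk, hk']
      push_cast
      simp
    have h2 := hdzδ j
    rw [h1] at h2 ⊢
    have h3 : |k' - k| < 1 := by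
      have : |((k' - k : ℤ) : ℝ)| < 1 := by linarith
      exact_mod_cast this
    rw [Int.abs_lt_one_iff.mp h3]
    simp
  refine ⟨s, hsS, z, δ, (norm_le_of_coord δ ε' hε'pos.le hδi).trans hε'1, hzδ, hz0, ?_⟩
  intro j
  rw [hzδ, map_add, map_add, map_smul, smul_eq_mul]
  rcases (hD j).eq_or_lt with hj | hj
  · rw [hz0 j hj.symm, ← hj]
    simpa using hwβ j hj.symm
  · have h1 := hsj j hj
    have h2 := (abs_le.mp (hdzδ j)).1
    linarith

variable (f : EE n → ℝ)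

/-- existence of an unbounded thin ray, for integer constraint data with equalities on `K`. -/
def Thin (c : ι → ℝ) : Prop :=
  ∃ y d : EE n, d ≠ 0 ∧ (∀ j, β j ≤ dz (a j) y) ∧ (∀ j ∈ K, dz (a j) y = c j) ∧
    (∀ j, 0 ≤ dz (a j) d) ∧ (∀ j ∈ K, dz (a j) d = 0) ∧
    ∀ ε : ℝ, 0 < ε → ∀ M : ℝ, ∃ z : Fin n → ℤ, (∀ j, β j ≤ dz (a j) (ip z)) ∧
      (∀ j ∈ K, dz (a j) (ip z) = c j) ∧
      (∃ t : ℝ, 0 ≤ t ∧ ‖ip z - (y + t • d)‖ ≤ ε) ∧ f (ip z) < M

lemma no_ray (hno : ¬ Thin a β K f 0) (D w : EE n) (hD0 : D ≠ 0)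
    (hD : ∀ j, 0 ≤ dz (a j) D) (hDK : ∀ j ∈ K, dz (a j) D = 0)
    (hw : ∀ m : Fin n → ℤ, dz m D = 0 → ∃ k : ℤ, dz m w = k)
    (hwβ : ∀ j, dz (a j) D = 0 → β j ≤ dz (a j) w)
    (hwK : ∀ j ∈ K, dz (a j) w = 0)
    (ε0 : ℝ) (hε0 : 0 < ε0)
    (H : ∀ M : ℝ, ∃ S : ℝ, ∀ s, S ≤ s → ∀ δ : EE n, ‖δ‖ ≤ ε0 →
      (∀ j ∈ K, dz (a j) δ = 0) → f (w + s • D + δ) < M) : False := by
  apply hno
  -- base point
  obtain ⟨s0, hs0⟩ : ∃ s0 : ℝ, ∀ j, 0 < dz (a j) D → β j ≤ dz (a j) w + s0 * dz (a j) D := by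
    have h1 : ∀ᶠ s : ℝ in atTop,
        ∀ j, 0 < dz (a j) D → β j ≤ dz (a j) w + s * dz (a j) D := by
      rw [eventually_all]
      intro j
      by_cases hj : 0 < dz (a j) D
      · have : Tendsto (fun s : ℝ => dz (a j) w + s * dz (a j) D) atTop atTop :=
          tendsto_atTop_add_const_left _ _ (tendsto_id.atTop_mul_const hj)
        filter_upwards [this.eventually_ge_atTop (β j)] with s hs _
        exact hs
      · filter_upwards with s h
        exact absurd h hj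
    exact h1.exists
  refine ⟨w + s0 • D, D, hD0, ?_, ?_, hD, hDK, ?_⟩
  · intro j
    rw [map_add, map_smul, smul_eq_mul]
    rcases (hD j).eq_or_lt with hj | hj
    · rw [← hj]; simpa using hwβ j hj.symm
    · exact hs0 j hj
  · intro j hj
    rw [map_add, map_smul, hwK j hj, hDK j hj]
    simp
  · intro ε hε M
    obtain ⟨S, hS⟩ := H M
    obtain ⟨s, hs, z, δ, hδ, hz, hz0, hzβ⟩ := near_ray a β D w hD hw hwβ (min ε ε0)
      (lt_min hε hε0) (max S s0)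
    have hδK : ∀ j ∈ K, dz (a j) δ = 0 := fun j hj => hz0 j (hDK j hj)
    refine ⟨z, hzβ, ?_, ⟨s - s0, ?_, ?_⟩, ?_⟩
    · intro j hj
      rw [hz, map_add, map_add, map_smul, hwK j hj, hDK j hj, hδK j hj]
      simp
    · linarith [le_max_right S s0]
    · have : ip z - (w + s0 • D + (s - s0) • D) = δ := by
        rw [hz, sub_smul]; abel
      rw [this]
      exact hδ.trans (min_le_left _ _)
    · rw [hz]
      exact hS s ((le_max_left S s0).trans hs) δ (hδ.trans (min_le_right _ _)) hδK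

end data

end Pool.Agent.Lib.MP_0e8110_lc
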