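import Mathlib
import Pool.Agent.Lib.MP_0e8110_lc.Core

set_option autoImplicit false

open Filter Topology

namespace Pool.Agent.Lib.MP_0e8110_lc

section cubic

variable {n : ℕ}
variable (T : EE n →L[ℝ] EE n →L[ℝ] EE n →L[ℝ] ℝ) (B : EE n →L[ℝ] EE n →L[ℝ] ℝ)
  (l : EE n →L[ℝ] ℝ) (c : ℝ)

/-- cubic function given by its multilinear data. -/
noncomputable def cub (x : EE n) : ℝ := T x x x + B x x + l x + c

/-- coefficient of `s ^ 2` in `T (v + s D) (v + s D) (v + s D)`. -/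
noncomputable def L3 (D v : EE n) : ℝ := T D D v + T D v D + T v D D

/-- coefficient of `s` in `T (v + s D) (v + s D) (v + s D)`. -/
noncomputable def Q3 (D v : EE n) : ℝ := T D v v + T v D v + T v v D

/-- slope. -/
noncomputable def G1 (D v : EE n) : ℝ := Q3 T D v + (B v D + B D v) + l D

lemma cub_expand (v D : EE n) (s : ℝ) :
    cub T B l c (v + s • D) = cub T B l c v + s * G1 T B l D v +
      s ^ 2 * (L3 T D v + B D D) + s ^ 3 * T D D D := by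
  simp only [cub, L3, Q3, G1, map_add, map_smul, _root_.add_apply,
    _root_.smul_apply, smul_eq_mul]
  ring

@[fun_prop]
lemma continuous_cub : Continuous (cub T B l c) := by
  unfold cub; fun_prop

lemma continuous_G1 (D : EE n) : Continuous (G1 T B l D) := by
  unfold G1 Q3; fun_prop

lemma continuous_L3 (D : EE n) : Continuous (L3 T D) := by
  unfold L3; fun_prop

lemma L3_add (D v w : EE n) : L3 T D (v + w) = L3 T D v + L3 T D w := by
  simp only [L3, map_add, _root_.add_apply]; ring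

lemma L3_neg (D v : EE n) : L3 T D (-v) = - L3 T D v := by
  simp only [L3, map_neg, _root_.neg_apply]; ring

lemma L3_zero_left (v : EE n) : L3 T 0 v = 0 := by
  simp [L3]

/-- bounds on a ball -/
lemma exists_bound (g : EE n → ℝ) (hg : Continuous g) (R : ℝ) :
    ∃ C : ℝ, 0 ≤ C ∧ ∀ δ : EE n, ‖δ‖ ≤ R → |g δ| ≤ C := by
  obtain ⟨C, hC⟩ := (isCompact_closedBall (0 : EE n) R).exists_bound_of_continuousOn
    hg.continuousOn
  refine ⟨max C 0, le_max_right _ _, fun δ hδ => ?_⟩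
  have := hC δ (by simpa using hδ)
  rw [Real.norm_eq_abs] at this
  exact this.trans (le_max_left _ _)

lemma poly1 (C η M : ℝ) (hη : 0 < η) : ∃ S : ℝ, ∀ s, S ≤ s → 0 ≤ s ∧ C - η * s < M := by
  refine ⟨max 0 ((C - M + 1) / η), fun s hs => ?_⟩
  have h0 : 0 ≤ s := (le_max_left _ _).trans hs
  have h1 : (C - M + 1) / η ≤ s := (le_max_right _ _).trans hs
  rw [div_le_iff₀ hη] at h1
  exact ⟨h0, by linarith⟩

lemma poly2 (C η M : ℝ) (hC : 0 ≤ C) (hη : 0 < η) :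
    ∃ S : ℝ, ∀ s, S ≤ s → 0 ≤ s ∧ C + s * C - s ^ 2 * η < M := by
  refine ⟨max 1 ((2 * C + 1 + |M|) / η), fun s hs => ?_⟩
  have h0 : 1 ≤ s := (le_max_left _ _).trans hs
  have h1 : (2 * C + 1 + |M|) / η ≤ s := (le_max_right _ _).trans hs
  rw [div_le_iff₀ hη] at h1
  refine ⟨by linarith, ?_⟩
  have h2 : s * (2 * C + 1 + |M|) ≤ s * (s * η) := mul_le_mul_of_nonneg_left h1 (by linarith)
  have h3 : C ≤ s * C := by nlinarith
  have h4 : -M ≤ |M| := neg_le_abs M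
  have h5 : |M| ≤ s * |M| := by nlinarith [abs_nonneg M]
  nlinarith

lemma poly3 (C η M : ℝ) (hC : 0 ≤ C) (hη : 0 < η) :
    ∃ S : ℝ, ∀ s, S ≤ s → 0 ≤ s ∧ C + s * C + s ^ 2 * C - s ^ 3 * η < M := by
  refine ⟨max 1 ((3 * C + 1 + |M|) / η), fun s hs => ?_⟩
  have h0 : 1 ≤ s := (le_max_left _ _).trans hs
  have h1 : (3 * C + 1 + |M|) / η ≤ s := (le_max_right _ _).trans hs
  rw [div_le_iff₀ hη] at h1
  refine ⟨by linarith, ?_⟩
  have hs2 : 1 ≤ s ^ 2 := by nlinarith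
  have h2 : s ^ 2 * (3 * C + 1 + |M|) ≤ s ^ 2 * (s * η) :=
    mul_le_mul_of_nonneg_left h1 (by positivity)
  have h3 : C ≤ s ^ 2 * C := by nlinarith
  have h3' : s * C ≤ s ^ 2 * C := by
    have : s ≤ s ^ 2 := by nlinarith
    exact mul_le_mul_of_nonneg_right this hC
  have h4 : -M ≤ |M| := neg_le_abs M
  have h5 : |M| ≤ s ^ 2 * |M| := by nlinarith [abs_nonneg M]
  nlinarith

variable {ι : Type*} [Fintype ι] (a : ι → (Fin n → ℤ)) (β : ι → ℝ) (K : Set ι)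

/-- (a) -/
lemma T_nonneg (hβ : ∀ j, β j ≤ 0) (hno : ¬ Thin a β K (cub T B l c) 0) (D : EE n)
    (hD : ∀ j, 0 ≤ dz (a j) D) (hDK : ∀ j ∈ K, dz (a j) D = 0) : 0 ≤ T D D D := by
  by_contra hneg
  push Not at hneg
  have hD0 : D ≠ 0 := by
    rintro rfl
    simp at hneg
  obtain ⟨C0, hC0, h0⟩ := exists_bound (cub T B l c) (continuous_cub T B l c) 1
  obtain ⟨C1, hC1, h1⟩ := exists_bound (G1 T B l D) (continuous_G1 T B l D) 1
  obtain ⟨C2, hC2, h2⟩ := exists_bound (fun v => L3 T D v + B D D)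
    ((continuous_L3 T D).add continuous_const) 1
  refine no_ray a β K (cub T B l c) hno D 0 hD0 hD hDK ?_ ?_ ?_ 1 one_pos ?_
  · intro m _; exact ⟨0, by simp⟩
  · intro j _; simpa using hβ j
  · intro j _; simp
  · intro M
    obtain ⟨S, hS⟩ := poly3 (C0 + C1 + C2) (-(T D D D)) M (by positivity) (by linarith)
    refine ⟨S, fun s hs δ hδ _ => ?_⟩
    obtain ⟨hs0, hsM⟩ := hS s hs
    have e : (0 : EE n) + s • D + δ = δ + s • D := by abel
    rw [e, cub_expand]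
    have b0 := (abs_le.mp (h0 δ hδ)).2
    have b1 := (abs_le.mp (h1 δ hδ)).2
    have b2 := (abs_le.mp (h2 δ hδ)).2
    have c1 : s * G1 T B l D δ ≤ s * C1 := mul_le_mul_of_nonneg_left b1 hs0
    have c2 : s ^ 2 * (L3 T D δ + B D D) ≤ s ^ 2 * C2 :=
      mul_le_mul_of_nonneg_left b2 (by positivity)
    have d1 : 0 ≤ s * C0 := by positivity
    have d2 : 0 ≤ s * C2 := by positivity
    have d3 : 0 ≤ s ^ 2 * C0 := by positivity
    have d4 : 0 ≤ s ^ 2 * C1 := by positivity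
    nlinarith

/-- (d) -/
lemma B_nonneg (hβ : ∀ j, β j ≤ 0) (hno : ¬ Thin a β K (cub T B l c) 0) (D : EE n)
    (hD : ∀ j, 0 ≤ dz (a j) D) (hDK : ∀ j ∈ K, dz (a j) D = 0)
    (hT : T D D D = 0) (hL : ∀ v : EE n, (∀ j ∈ K, dz (a j) v = 0) → L3 T D v = 0) :
    0 ≤ B D D := by
  by_contra hneg
  push Not at hneg
  have hD0 : D ≠ 0 := by
    rintro rfl
    simp at hneg
  obtain ⟨C0, hC0, h0⟩ := exists_bound (cub T B l c) (continuous_cub T B l c) 1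
  obtain ⟨C1, hC1, h1⟩ := exists_bound (G1 T B l D) (continuous_G1 T B l D) 1
  refine no_ray a β K (cub T B l c) hno D 0 hD0 hD hDK ?_ ?_ ?_ 1 one_pos ?_
  · intro m _; exact ⟨0, by simp⟩
  · intro j _; simpa using hβ j
  · intro j _; simp
  · intro M
    obtain ⟨S, hS⟩ := poly2 (C0 + C1) (-(B D D)) M (by positivity) (by linarith)
    refine ⟨S, fun s hs δ hδ hδK => ?_⟩
    obtain ⟨hs0, hsM⟩ := hS s hs
    have e : (0 : EE n) + s • D + δ = δ + s • D := by abel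
    rw [e, cub_expand, hT, hL δ hδK]
    have b0 := (abs_le.mp (h0 δ hδ)).2
    have b1 := (abs_le.mp (h1 δ hδ)).2
    have c1 : s * G1 T B l D δ ≤ s * C1 := mul_le_mul_of_nonneg_left b1 hs0
    have d1 : 0 ≤ s * C0 := by positivity
    nlinarith

/-- (f) -/
lemma G_nonneg (hno : ¬ Thin a β K (cub T B l c) 0) (D : EE n) (hD0 : D ≠ 0)
    (hD : ∀ j, 0 ≤ dz (a j) D) (hDK : ∀ j ∈ K, dz (a j) D = 0)
    (hT : T D D D = 0) (hL : ∀ v : EE n, (∀ j ∈ K, dz (a j) v = 0) → L3 T D v = 0)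
    (hB : B D D = 0) (w : EE n)
    (hw : ∀ m : Fin n → ℤ, dz m D = 0 → ∃ k : ℤ, dz m w = k)
    (hwβ : ∀ j, dz (a j) D = 0 → β j ≤ dz (a j) w)
    (hwK : ∀ j ∈ K, dz (a j) w = 0) : 0 ≤ G1 T B l D w := by
  by_contra hneg
  push Not at hneg
  -- continuity of the slope
  obtain ⟨ε1, hε1, hG⟩ : ∃ ε1 : ℝ, 0 < ε1 ∧ ∀ δ : EE n, ‖δ‖ ≤ ε1 →
      G1 T B l D (w + δ) < G1 T B l D w / 2 := by
    have hc : Continuous (fun δ : EE n => G1 T B l D (w + δ)) :=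
      (continuous_G1 T B l D).comp (continuous_const.add continuous_id)
    have h1 : ∀ᶠ δ in 𝓝 (0 : EE n), G1 T B l D (w + δ) < G1 T B l D w / 2 := by
      apply (hc.tendsto 0).eventually_lt_const
      simp only [add_zero]
      linarith
    rw [Metric.eventually_nhds_iff_ball] at h1
    obtain ⟨ε, hε, h2⟩ := h1
    refine ⟨ε / 2, by positivity, fun δ hδ => h2 δ ?_⟩
    rw [mem_ball_zero_iff]
    linarith
  obtain ⟨C0, hC0, h0⟩ := exists_bound (fun δ => cub T B l c (w + δ))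
    ((continuous_cub T B l c).comp (continuous_const.add continuous_id)) ε1
  refine no_ray a β K (cub T B l c) hno D w hD0 hD hDK hw hwβ hwK ε1 hε1 ?_
  intro M
  obtain ⟨S, hS⟩ := poly1 C0 (-(G1 T B l D w / 2)) M (by linarith)
  refine ⟨S, fun s hs δ hδ hδK => ?_⟩
  obtain ⟨hs0, hsM⟩ := hS s hs
  have e : w + s • D + δ = (w + δ) + s • D := by abel
  have hwδ : L3 T D (w + δ) = 0 := by
    apply hL
    intro j hj
    rw [map_add, hwK j hj, hδK j hj, add_zero]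
  rw [e, cub_expand, hT, hwδ, hB]
  have b0 := (abs_le.mp (h0 δ hδ)).2
  have b1 := hG δ hδ
  have c1 : s * G1 T B l D (w + δ) ≤ s * (G1 T B l D w / 2) :=
    mul_le_mul_of_nonneg_left b1.le hs0
  nlinarith

/-- (b): leading coefficient along an asymptotic direction. -/
lemma T_nonpos (𝒰 : Filter ℕ) [𝒰.NeBot] (D : EE n) (x : ℕ → EE n) (b : ℕ → ℝ)
    (hb : Tendsto b 𝒰 atTop) (hx : Tendsto (fun k => (b k)⁻¹ • x k) 𝒰 (𝓝 D))
    (hf : ∀ᶠ k in 𝒰, cub T B l c (x k) < 0) : T D D D ≤ 0 := by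
  set ξ : ℕ → EE n := fun k => (b k)⁻¹ • x k with hξ
  have hbi : Tendsto (fun k => (b k)⁻¹) 𝒰 (𝓝 0) := tendsto_inv_atTop_zero.comp hb
  have hlim : Tendsto (fun k => T (ξ k) (ξ k) (ξ k) + B (ξ k) (ξ k) * (b k)⁻¹ +
      l (ξ k) * ((b k)⁻¹) ^ 2 + c * ((b k)⁻¹) ^ 3) 𝒰
      (𝓝 (T D D D + B D D * 0 + l D * 0 ^ 2 + c * 0 ^ 3)) := by
    have h1 : Tendsto (fun k => T (ξ k) (ξ k) (ξ k)) 𝒰 (𝓝 (T D D D)) := by
      have : Continuous (fun x : EE n => T x x x) := by fun_prop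
      exact (this.tendsto D).comp hx
    have h2 : Tendsto (fun k => B (ξ k) (ξ k)) 𝒰 (𝓝 (B D D)) := by
      have : Continuous (fun x : EE n => B x x) := by fun_prop
      exact (this.tendsto D).comp hx
    have h3 : Tendsto (fun k => l (ξ k)) 𝒰 (𝓝 (l D)) := (l.continuous.tendsto D).comp hx
    exact ((h1.add (h2.mul hbi)).add (h3.mul (hbi.pow 2))).add
      (tendsto_const_nhds.mul (hbi.pow 3))
  have hlim' : Tendsto (fun k => T (ξ k) (ξ k) (ξ k) + B (ξ k) (ξ k) * (b k)⁻¹ +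
      l (ξ k) * ((b k)⁻¹) ^ 2 + c * ((b k)⁻¹) ^ 3) 𝒰 (𝓝 (T D D D)) := by
    simpa using hlim
  apply le_of_tendsto hlim'
  filter_upwards [hf, hb.eventually_gt_atTop 0] with k hk hbk
  have hxk : x k = b k • ξ k := by
    rw [hξ]; simp only; rw [smul_smul, mul_inv_cancel₀ hbk.ne', one_smul]
  have e : cub T B l c (x k) = (b k) ^ 3 * (T (ξ k) (ξ k) (ξ k) + B (ξ k) (ξ k) * (b k)⁻¹ +
      l (ξ k) * ((b k)⁻¹) ^ 2 + c * ((b k)⁻¹) ^ 3) := by
    rw [hxk]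
    simp only [cub, map_smul, _root_.smul_apply, smul_eq_mul]
    field_simp
  rw [e] at hk
  by_contra hpos
  push Not at hpos
  have : 0 < (b k) ^ 3 * (T (ξ k) (ξ k) (ξ k) + B (ξ k) (ξ k) * (b k)⁻¹ +
      l (ξ k) * ((b k)⁻¹) ^ 2 + c * ((b k)⁻¹) ^ 3) := mul_pos (by positivity) hpos
  linarith

/-- (U) -/
lemma key_U (𝒰 : Filter ℕ) [𝒰.NeBot] (D : EE n) (x : ℕ → EE n) (b : ℕ → ℝ)
    (hb : Tendsto b 𝒰 atTop) (hx : Tendsto (fun k => (b k)⁻¹ • x k) 𝒰 (𝓝 D))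
    (hf : ∀ᶠ k in 𝒰, cub T B l c (x k) < 0) (t : ℝ) (v : EE n)
    (hC : ∀ᶠ k in 𝒰, 0 ≤ T (x k - t • v) (x k - t • v) (x k - t • v)) :
    t * L3 T D v + B D D ≤ 0 := by
  set ξ : ℕ → EE n := fun k => (b k)⁻¹ • x k with hξ
  have hbi : Tendsto (fun k => (b k)⁻¹) 𝒰 (𝓝 0) := tendsto_inv_atTop_zero.comp hb
  have hlim : Tendsto (fun k => t * L3 T (ξ k) v + B (ξ k) (ξ k) + l (ξ k) * (b k)⁻¹ +
      c * ((b k)⁻¹) ^ 2 - t ^ 2 * Q3 T (ξ k) v * (b k)⁻¹ + t ^ 3 * T v v v * ((b k)⁻¹) ^ 2) 𝒰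
      (𝓝 (t * L3 T D v + B D D + l D * 0 + c * 0 ^ 2 - t ^ 2 * Q3 T D v * 0 +
        t ^ 3 * T v v v * 0 ^ 2)) := by
    have h1 : Tendsto (fun k => L3 T (ξ k) v) 𝒰 (𝓝 (L3 T D v)) := by
      have : Continuous (fun x : EE n => L3 T x v) := by unfold L3; fun_prop
      exact (this.tendsto D).comp hx
    have h2 : Tendsto (fun k => B (ξ k) (ξ k)) 𝒰 (𝓝 (B D D)) := by
      have : Continuous (fun x : EE n => B x x) := by fun_prop
      exact (this.tendsto D).comp hx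
    have h3 : Tendsto (fun k => l (ξ k)) 𝒰 (𝓝 (l D)) := (l.continuous.tendsto D).comp hx
    have h4 : Tendsto (fun k => Q3 T (ξ k) v) 𝒰 (𝓝 (Q3 T D v)) := by
      have : Continuous (fun x : EE n => Q3 T x v) := by unfold Q3; fun_prop
      exact (this.tendsto D).comp hx
    exact (((((h1.const_mul t).add h2).add (h3.mul hbi)).add
      (tendsto_const_nhds.mul (hbi.pow 2))).sub ((h4.const_mul (t ^ 2)).mul hbi)).add
      (tendsto_const_nhds.mul (hbi.pow 2))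
  have hlim' : Tendsto (fun k => t * L3 T (ξ k) v + B (ξ k) (ξ k) + l (ξ k) * (b k)⁻¹ +
      c * ((b k)⁻¹) ^ 2 - t ^ 2 * Q3 T (ξ k) v * (b k)⁻¹ + t ^ 3 * T v v v * ((b k)⁻¹) ^ 2) 𝒰
      (𝓝 (t * L3 T D v + B D D)) := by
    simpa using hlim
  apply le_of_tendsto hlim'
  filter_upwards [hf, hb.eventually_gt_atTop 0, hC] with k hk hbk hCk
  have hxk : x k = b k • ξ k := by
    rw [hξ]; simp only; rw [smul_smul, mul_inv_cancel₀ hbk.ne', one_smul]
  have e : cub T B l c (x k) - T (x k - t • v) (x k - t • v) (x k - t • v) =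
      (b k) ^ 2 * (t * L3 T (ξ k) v + B (ξ k) (ξ k) + l (ξ k) * (b k)⁻¹ +
      c * ((b k)⁻¹) ^ 2 - t ^ 2 * Q3 T (ξ k) v * (b k)⁻¹ + t ^ 3 * T v v v * ((b k)⁻¹) ^ 2) := by
    rw [hxk]
    simp only [cub, L3, Q3, map_sub, map_smul, _root_.smul_apply,
      _root_.sub_apply, smul_eq_mul]
    field_simp
    ring
  by_contra hpos
  push Not at hpos
  have : 0 < (b k) ^ 2 * (t * L3 T (ξ k) v + B (ξ k) (ξ k) + l (ξ k) * (b k)⁻¹ +
      c * ((b k)⁻¹) ^ 2 - t ^ 2 * Q3 T (ξ k) v * (b k)⁻¹ + t ^ 3 * T v v v * ((b k)⁻¹) ^ 2) :=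
    mul_pos (by positivity) hpos
  rw [← e] at this
  linarith

end cubic

end Pool.Agent.Lib.MP_0e8110_lc
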