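import Mathlib
import Pool.Agent.Lib.MP_0e8110_lc.Cubic

set_option autoImplicit false

open Filter Topology

namespace Pool.Agent.Lib.MP_0e8110_lc

section chain

variable {n : ℕ}
variable (T : EE n →L[ℝ] EE n →L[ℝ] EE n →L[ℝ] ℝ) (B : EE n →L[ℝ] EE n →L[ℝ] ℝ)
  (l : EE n →L[ℝ] ℝ) (c : ℝ)
variable {ι : Type*} [Fintype ι] (a : ι → (Fin n → ℤ)) (β : ι → ℝ) (K : Set ι)
variable (𝒰 : Ultrafilter ℕ) (z : ℕ → (Fin n → ℤ))

/-- The state of the chain argument. -/
structure St (E0 : Submodule ℝ (EE n)) (D : EE n) (u : ℕ → EE n) : Prop where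
  H1 : ∀ m : Fin n → ℤ, dz m D = 0 → ∀ e ∈ E0, dz m e = 0
  hD : ∀ j, 0 ≤ dz (a j) D
  hDK : ∀ j ∈ K, dz (a j) D = 0
  H2a : T D D D = 0
  H2b : ∀ v : EE n, (∀ j ∈ K, dz (a j) v = 0) → L3 T D v = 0
  H2c : B D D = 0
  H3a : ∀ k, ∀ e ∈ E0, inner ℝ e (u k) = 0
  H3b : ∀ m : Fin n → ℤ, dz m D = 0 → ∀ k, dz m (u k) = dz m (ip (z k))
  H4 : ∀ A : ℝ, 0 ≤ A → Tendsto (fun k => cub T B l c (u k + (A * ‖u k‖) • D)) 𝒰 atBot

variable (hβ : ∀ j, β j ≤ 0)
  (hno : ¬ Thin a β K (cub T B l c) 0)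
  (hzK : ∀ j ∈ K, ∀ k, dz (a j) (ip (z k)) = 0)
  (hzβ : ∀ j, ∀ k, β j ≤ dz (a j) (ip (z k)))
  (hzJ : ∀ j, j ∉ K → Tendsto (fun k => dz (a j) (ip (z k))) 𝒰 atTop)

include hβ hno hzK hzβ hzJ

/-- One step of the chain. -/
lemma St.step (E0 : Submodule ℝ (EE n)) (D : EE n) (u : ℕ → EE n)
    (hst : St T B l c a K 𝒰 z E0 D u) :
    ∃ (D2 : EE n) (D' : EE n) (u' : ℕ → EE n), ‖D2‖ = 1 ∧ (∀ e ∈ E0, inner ℝ e D2 = 0) ∧
      St T B l c a K 𝒰 z (E0 ⊔ Submodule.span ℝ {D2}) D' u' := by
  obtain ⟨H1, hD, hDK, H2a, H2b, H2c, H3a, H3b, H4⟩ := hst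
  have huK : ∀ j ∈ K, ∀ k, dz (a j) (u k) = 0 := by
    intro j hj k
    rw [H3b (a j) (hDK j hj) k, hzK j hj k]
  -- 1. norms tend to infinity
  have hu0 : Tendsto (fun k => cub T B l c (u k)) 𝒰 atBot := by
    have := H4 0 le_rfl
    simpa using this
  have hnorm : Tendsto (fun k => ‖u k‖) 𝒰 atTop := by
    rw [tendsto_atTop]
    intro R
    by_contra hcon
    have hlt : ∀ᶠ k in (𝒰 : Filter ℕ), ‖u k‖ < R := by
      have := Ultrafilter.eventually_not.mpr hcon
      simpa using this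
    obtain ⟨C, hC, hCb⟩ := exists_bound (cub T B l c) (continuous_cub T B l c) R
    have h1 := hu0.eventually_lt_atBot (-C)
    obtain ⟨k, hk1, hk2⟩ := (hlt.and h1).exists
    have := (abs_le.mp (hCb (u k) hk1.le)).1
    linarith
  have hnpos : ∀ᶠ k in (𝒰 : Filter ℕ), 0 < ‖u k‖ := hnorm.eventually_gt_atTop 0
  have hninv : Tendsto (fun k => ‖u k‖⁻¹) 𝒰 (𝓝 0) := tendsto_inv_atTop_zero.comp hnorm
  -- 2. limit direction
  set v : ℕ → EE n := fun k => ‖u k‖⁻¹ • u k with hv
  obtain ⟨D2, -, hD2⟩ : ∃ D2 ∈ Metric.closedBall (0 : EE n) 1, Tendsto v 𝒰 (𝓝 D2) := by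
    have hcomp := isCompact_closedBall (0 : EE n) 1
    have hle : ((𝒰.map v : Ultrafilter (EE n)) : Filter (EE n)) ≤
        𝓟 (Metric.closedBall (0 : EE n) 1) := by
      rw [le_principal_iff, Ultrafilter.mem_coe, Ultrafilter.mem_map]
      apply Filter.mem_of_superset (Filter.univ_mem)
      intro k _
      simp only [Set.mem_preimage, mem_closedBall_zero_iff, hv]
      rw [norm_smul, norm_inv, norm_norm]
      rcases eq_or_ne ‖u k‖ 0 with h | h
      · rw [h]; simp
      · rw [inv_mul_cancel₀ h]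
    obtain ⟨D2, hD2, h⟩ := hcomp.ultrafilter_le_nhds (𝒰.map v) hle
    exact ⟨D2, hD2, h⟩
  have hD2norm : ‖D2‖ = 1 := by
    have h1 : Tendsto (fun k => ‖v k‖) 𝒰 (𝓝 ‖D2‖) := (continuous_norm.tendsto D2).comp hD2
    have h2 : Tendsto (fun k => ‖v k‖) 𝒰 (𝓝 1) := by
      apply Tendsto.congr' _ tendsto_const_nhds
      filter_upwards [hnpos] with k hk
      simp only [hv]
      rw [norm_smul, norm_inv, norm_norm, inv_mul_cancel₀ hk.ne']
    exact tendsto_nhds_unique h1 h2
  have hD2inner : inner ℝ D2 D2 = 1 := by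
    rw [real_inner_self_eq_norm_sq, hD2norm]; norm_num
  -- 3. orthogonality
  have hD2E : ∀ e ∈ E0, inner ℝ e D2 = 0 := by
    intro e he
    have h1 : Tendsto (fun k => inner ℝ e (v k)) 𝒰 (𝓝 (inner ℝ e D2)) :=
      ((continuous_const.inner continuous_id).tendsto D2).comp hD2
    have h2 : Tendsto (fun k => inner ℝ e (v k)) 𝒰 (𝓝 0) := by
      apply Tendsto.congr _ tendsto_const_nhds
      intro k
      simp only [hv]
      rw [inner_smul_right, H3a k e he, mul_zero]
    exact tendsto_nhds_unique h1 h2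
  -- 4. integer functionals along `D2`
  have hdzv : ∀ m : Fin n → ℤ, dz m D = 0 →
      Tendsto (fun k => ‖u k‖⁻¹ * dz m (ip (z k))) 𝒰 (𝓝 (dz m D2)) := by
    intro m hm
    have h1 : Tendsto (fun k => dz m (v k)) 𝒰 (𝓝 (dz m D2)) :=
      ((dz m).continuous.tendsto D2).comp hD2
    refine h1.congr ?_
    intro k
    simp only [hv]
    rw [map_smul, smul_eq_mul, H3b m hm k]
  have hD2K : ∀ j ∈ K, dz (a j) D2 = 0 := by
    intro j hj
    have h1 := hdzv (a j) (hDK j hj)
    have h2 : Tendsto (fun k => ‖u k‖⁻¹ * dz (a j) (ip (z k))) 𝒰 (𝓝 0) := by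
      apply Tendsto.congr _ tendsto_const_nhds
      intro k
      rw [hzK j hj k, mul_zero]
    exact tendsto_nhds_unique h1 h2
  have hD2J : ∀ j, dz (a j) D = 0 → 0 ≤ dz (a j) D2 := by
    intro j hj
    by_cases hjK : j ∈ K
    · rw [hD2K j hjK]
    · apply ge_of_tendsto (hdzv (a j) hj)
      filter_upwards [(hzJ j hjK).eventually_ge_atTop 0] with k hk
      positivity
  -- 5. choice of `A`
  obtain ⟨A, hA0, hA1, hA2⟩ : ∃ A : ℝ, 0 < A ∧
      (∀ m : Fin n → ℤ, A * dz m D + dz m D2 = 0 → dz m D = 0 ∧ dz m D2 = 0) ∧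
      (∀ j, 0 < dz (a j) D → 0 < A * dz (a j) D + dz (a j) D2) := by
    set bad : Set ℝ := Set.range (fun m : Fin n → ℤ => -(dz m D2) / dz m D) with hbad
    have hcount : bad.Countable := Set.countable_range _
    obtain ⟨A1, hA1⟩ : ∃ A1 : ℝ, ∀ A, A1 ≤ A → 0 < A ∧
        ∀ j, 0 < dz (a j) D → 0 < A * dz (a j) D + dz (a j) D2 := by
      have h1 : ∀ᶠ A : ℝ in atTop, 0 < A ∧
          ∀ j, 0 < dz (a j) D → 0 < A * dz (a j) D + dz (a j) D2 := by
        apply (eventually_gt_atTop 0).and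
        rw [eventually_all]
        intro j
        by_cases hj : 0 < dz (a j) D
        · have : Tendsto (fun s : ℝ => s * dz (a j) D + dz (a j) D2) atTop atTop :=
            tendsto_atTop_add_const_right _ _ (tendsto_id.atTop_mul_const hj)
          filter_upwards [this.eventually_gt_atTop 0] with s hs _
          exact hs
        · filter_upwards with s h
          exact absurd h hj
      obtain ⟨A1, hA1⟩ := eventually_atTop.mp h1
      exact ⟨A1, fun A hA => hA1 A hA⟩
    obtain ⟨A, hAbad, hAgt⟩ := (hcount.dense_compl ℝ).exists_gt A1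
    obtain ⟨h1, h2⟩ := hA1 A hAgt.le
    refine ⟨A, h1, ?_, h2⟩
    intro m hm
    by_cases hmD : dz m D = 0
    · refine ⟨hmD, ?_⟩
      rw [hmD] at hm
      simpa using hm
    · exfalso
      apply hAbad
      refine ⟨m, ?_⟩
      simp only
      rw [div_eq_iff hmD]
      linarith
  -- 6. new data
  set D' : EE n := A • D + D2 with hD'
  set b : ℕ → ℝ := fun k => inner ℝ D2 (u k) with hb
  set u' : ℕ → EE n := fun k => u k - b k • D2 with hu'
  set x : ℕ → EE n := fun k => u' k + b k • D' with hx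
  have hxu : ∀ k, x k = u k + (A * b k) • D := by
    intro k
    simp only [hx, hu', hD']
    rw [smul_add, smul_smul, mul_comm (b k) A]
    abel
  have hdzD' : ∀ m : Fin n → ℤ, dz m D' = A * dz m D + dz m D2 := by
    intro m
    rw [hD', map_add, map_smul, smul_eq_mul]
  have hgen : ∀ m : Fin n → ℤ, dz m D' = 0 → dz m D = 0 ∧ dz m D2 = 0 := by
    intro m hm
    rw [hdzD'] at hm
    exact hA1 m hm
  -- 7. size of `b`
  have hbn : Tendsto (fun k => ‖u k‖⁻¹ * b k) 𝒰 (𝓝 1) := by
    have h1 : Tendsto (fun k => inner ℝ D2 (v k)) 𝒰 (𝓝 (inner ℝ D2 D2)) :=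
      ((continuous_const.inner continuous_id).tendsto D2).comp hD2
    rw [hD2inner] at h1
    refine h1.congr ?_
    intro k
    simp only [hv, hb]
    rw [inner_smul_right]
  have hbtop : Tendsto b 𝒰 atTop := by
    have h1 := hnorm.atTop_mul_pos one_pos hbn
    refine h1.congr' ?_
    filter_upwards [hnpos] with k hk
    rw [← mul_assoc, mul_inv_cancel₀ hk.ne', one_mul]
  have hble : ∀ k, b k ≤ ‖u k‖ := by
    intro k
    have := real_inner_le_norm D2 (u k)
    rw [hD2norm, one_mul] at this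
    exact this
  have hbpos : ∀ᶠ k in (𝒰 : Filter ℕ), 0 < b k := hbtop.eventually_gt_atTop 0
  -- 8. `u' / b → 0`
  have hu'b : Tendsto (fun k => (b k)⁻¹ • u' k) 𝒰 (𝓝 0) := by
    have h1 : Tendsto (fun k => (‖u k‖⁻¹ * b k)⁻¹ • (v k - (‖u k‖⁻¹ * b k) • D2)) 𝒰
        (𝓝 ((1:ℝ)⁻¹ • (D2 - (1:ℝ) • D2))) :=
      (hbn.inv₀ one_ne_zero).smul (hD2.sub (hbn.smul_const D2))
    have h2 : ((1:ℝ)⁻¹ • (D2 - (1:ℝ) • D2)) = 0 := by simp
    rw [h2] at h1
    refine h1.congr' ?_
    filter_upwards [hnpos, hbpos] with k hk hbk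
    simp only [hv, hu']
    rw [smul_sub, smul_sub, smul_smul, smul_smul, smul_smul]
    congr 1
    · congr 1
      field_simp
    · congr 1
      field_simp
  -- 9. `x / b → D'`
  have hxb : Tendsto (fun k => (b k)⁻¹ • x k) 𝒰 (𝓝 D') := by
    have h1 : Tendsto (fun k => (b k)⁻¹ • u' k + D') 𝒰 (𝓝 (0 + D')) :=
      hu'b.add tendsto_const_nhds
    rw [zero_add] at h1
    refine h1.congr' ?_
    filter_upwards [hbpos] with k hbk
    simp only [hx]
    rw [smul_add, smul_smul, inv_mul_cancel₀ hbk.ne', one_smul]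
  -- 10. `f x → -∞`
  have haff : ∀ k s, cub T B l c (u k + s • D) = cub T B l c (u k) + s * G1 T B l D (u k) := by
    intro k s
    rw [cub_expand, H2a, H2b (u k) (fun j hj => huK j hj k), H2c]
    ring
  have hfx : Tendsto (fun k => cub T B l c (x k)) 𝒰 atBot := by
    rw [tendsto_atBot]
    intro M
    filter_upwards [hu0.eventually_le_atBot M, (H4 A hA0.le).eventually_le_atBot M, hbpos]
      with k h0 h1 hbk
    rw [hxu, haff]
    rw [haff] at h1
    have hle1 : A * b k ≤ A * ‖u k‖ := mul_le_mul_of_nonneg_left (hble k) hA0.le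
    have hge0 : 0 ≤ A * b k := by positivity
    rcases le_total 0 (G1 T B l D (u k)) with hg | hg
    · have := mul_le_mul_of_nonneg_right hle1 hg
      linarith
    · have := mul_nonneg_of_nonpos_of_nonpos (neg_nonpos.mpr hge0) hg
      have : A * b k * G1 T B l D (u k) ≤ 0 := mul_nonpos_of_nonneg_of_nonpos hge0 hg
      linarith
  have hfneg : ∀ᶠ k in (𝒰 : Filter ℕ), cub T B l c (x k) < 0 := hfx.eventually_lt_atBot 0
  -- cone membership of `D'`
  have hD'0 : ∀ j, 0 ≤ dz (a j) D' := by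
    intro j
    rw [hdzD']
    rcases (hD j).eq_or_lt with hj | hj
    · rw [← hj, mul_zero, zero_add]
      exact hD2J j hj.symm
    · exact (hA2 j hj).le
  have hD'K : ∀ j ∈ K, dz (a j) D' = 0 := by
    intro j hj
    rw [hdzD', hDK j hj, hD2K j hj]
    ring
  have hD'ne : D' ≠ 0 := by
    intro h0
    -- all integer functionals vanish on D2
    have h1 : ∀ i, D2 i = 0 := by
      intro i
      have h2 := (hgen (Pi.single i 1) (by rw [h0, map_zero])).2
      rw [dz_apply] at h2
      rw [Finset.sum_eq_single i] at h2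
      · simpa using h2
      · intro j _ hji
        simp [hji]
      · simp
    have h3 : D2 = 0 := by
      ext i
      simpa using h1 i
    rw [h3, norm_zero] at hD2norm
    norm_num at hD2norm
  -- functionals on `u'` and `x`
  have hu'z : ∀ m : Fin n → ℤ, dz m D' = 0 → ∀ k, dz m (u' k) = dz m (ip (z k)) := by
    intro m hm k
    obtain ⟨h1, h2⟩ := hgen m hm
    simp only [hu']
    rw [map_sub, map_smul, h2, smul_zero, sub_zero, H3b m h1 k]
  have hxK : ∀ j ∈ K, ∀ k, dz (a j) (x k) = 0 := by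
    intro j hj k
    simp only [hx]
    rw [map_add, map_smul, hD'K j hj, smul_zero, add_zero, hu'z (a j) (hD'K j hj) k, hzK j hj k]
  have hxJ : ∀ j, j ∉ K → Tendsto (fun k => dz (a j) (x k)) 𝒰 atTop := by
    intro j hj
    rcases (hD'0 j).eq_or_lt with h0 | hpos
    · refine (hzJ j hj).congr ?_
      intro k
      simp only [hx]
      rw [map_add, map_smul, ← h0, smul_zero, add_zero, hu'z (a j) h0.symm k]
    · have h1 : Tendsto (fun k => dz (a j) ((b k)⁻¹ • x k)) 𝒰 (𝓝 (dz (a j) D')) :=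
        ((dz (a j)).continuous.tendsto D').comp hxb
      have h2 := hbtop.atTop_mul_pos hpos h1
      refine h2.congr' ?_
      filter_upwards [hbpos] with k hbk
      rw [map_smul, smul_eq_mul, ← mul_assoc, mul_inv_cancel₀ hbk.ne', one_mul]
  have hcone : ∀ (t : ℝ) (w : EE n), (∀ j ∈ K, dz (a j) w = 0) →
      ∀ᶠ k in (𝒰 : Filter ℕ), 0 ≤ T (x k - t • w) (x k - t • w) (x k - t • w) := by
    intro t w hw
    have h1 : ∀ᶠ k in (𝒰 : Filter ℕ), ∀ j, 0 ≤ dz (a j) (x k - t • w) := by
      rw [eventually_all]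
      intro j
      by_cases hj : j ∈ K
      · filter_upwards with k
        rw [map_sub, map_smul, hxK j hj k, hw j hj]
        simp
      · filter_upwards [(hxJ j hj).eventually_ge_atTop (t * dz (a j) w)] with k hk
        rw [map_sub, map_smul, smul_eq_mul]
        linarith
    filter_upwards [h1] with k hk
    apply T_nonneg T B l c a β K hβ hno _ hk
    intro j hj
    rw [map_sub, map_smul, hxK j hj k, hw j hj]
    simp
  -- new vanishing
  have H2a' : T D' D' D' = 0 := le_antisymm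
    (T_nonpos T B l c 𝒰 D' x b hbtop hxb hfneg)
    (T_nonneg T B l c a β K hβ hno D' hD'0 hD'K)
  have hU : ∀ (t : ℝ) (w : EE n), (∀ j ∈ K, dz (a j) w = 0) → t * L3 T D' w + B D' D' ≤ 0 :=
    fun t w hw => key_U T B l c 𝒰 D' x b hbtop hxb hfneg t w (hcone t w hw)
  have H2b' : ∀ w : EE n, (∀ j ∈ K, dz (a j) w = 0) → L3 T D' w = 0 := by
    intro w hw
    by_contra hne
    have := hU ((1 - B D' D') / L3 T D' w) w hw
    rw [div_mul_cancel₀ _ hne] at this
    linarith
  have H2c' : B D' D' = 0 := by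
    apply le_antisymm
    · have := hU 0 0 (by intro j _; simp)
      simpa using this
    · exact B_nonneg T B l c a β K hβ hno D' hD'0 hD'K H2a' H2b'
  -- slope
  have hslope : ∀ k, 0 ≤ G1 T B l D' (u' k) := by
    intro k
    apply G_nonneg T B l c a β K hno D' hD'ne hD'0 hD'K H2a' H2b' H2c'
    · intro m hm
      rw [hu'z m hm k]
      exact dz_ip_int m (z k)
    · intro j hj
      rw [hu'z (a j) hj k]
      exact hzβ j k
    · intro j hj
      rw [hu'z (a j) (hD'K j hj) k, hzK j hj k]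
  have haff' : ∀ k s, cub T B l c (u' k + s • D') =
      cub T B l c (u' k) + s * G1 T B l D' (u' k) := by
    intro k s
    rw [cub_expand, H2a', H2b' (u' k), H2c']
    · ring
    · intro j hj
      rw [hu'z (a j) (hD'K j hj) k, hzK j hj k]
  refine ⟨D2, D', u', hD2norm, hD2E, ?_⟩
  refine ⟨?_, hD'0, hD'K, H2a', H2b', H2c', ?_, hu'z, ?_⟩
  · -- H1
    intro m hm e he
    obtain ⟨h1, h2⟩ := hgen m hm
    have hle : E0 ⊔ Submodule.span ℝ {D2} ≤ LinearMap.ker (dz m : EE n →ₗ[ℝ] ℝ) := by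
      apply sup_le
      · intro e he
        exact H1 m h1 e he
      · rw [Submodule.span_singleton_le_iff_mem]
        exact h2
    exact hle he
  · -- H3a
    intro k e he
    have hle : E0 ⊔ Submodule.span ℝ {D2} ≤ (Submodule.span ℝ {u' k})ᗮ := by
      apply sup_le
      · intro e he
        rw [Submodule.mem_orthogonal_singleton_iff_inner_left]
        simp only [hu']
        rw [inner_sub_right, inner_smul_right, H3a k e he, hD2E e he]
        simp
      · rw [Submodule.span_singleton_le_iff_mem, Submodule.mem_orthogonal_singleton_iff_inner_left]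
        simp only [hu']
        rw [inner_sub_right, inner_smul_right, hD2inner]
        simp [hb]
    have := hle he
    rwa [Submodule.mem_orthogonal_singleton_iff_inner_left] at this
  · -- H4
    intro A' hA'
    have hsmall : ∀ᶠ k in (𝒰 : Filter ℕ), A' * ‖u' k‖ ≤ b k := by
      have h1 : Tendsto (fun k => A' * ‖(b k)⁻¹ • u' k‖) 𝒰 (𝓝 (A' * ‖(0 : EE n)‖)) :=
        hu'b.norm.const_mul A'
      rw [norm_zero, mul_zero] at h1
      filter_upwards [h1.eventually_lt_const one_pos, hbpos] with k hk hbk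
      rw [norm_smul, norm_inv, Real.norm_of_nonneg hbk.le] at hk
      have h2 : A' * ‖u' k‖ = b k * (A' * ((b k)⁻¹ * ‖u' k‖)) := by
        field_simp
      rw [h2]
      calc b k * (A' * ((b k)⁻¹ * ‖u' k‖)) ≤ b k * 1 := by
            apply mul_le_mul_of_nonneg_left hk.le hbk.le
        _ = b k := mul_one _
    apply tendsto_atBot_mono' _ _ hfx
    filter_upwards [hsmall] with k hk
    simp only [hx]
    rw [haff', haff']
    have := mul_le_mul_of_nonneg_right hk (hslope k)
    linarith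

/-- The chain cannot exist. -/
lemma St.false : ∀ (d : ℕ) (E0 : Submodule ℝ (EE n)) (D : EE n) (u : ℕ → EE n),
    St T B l c a K 𝒰 z E0 D u → Module.finrank ℝ E0 + d = n → False := by
  intro d
  induction d with
  | zero =>
    intro E0 D u hst hdim
    have htop : E0 = ⊤ := by
      apply Submodule.eq_top_of_finrank_eq
      rw [finrank_euclideanSpace_fin]
      simpa using hdim
    have hu : ∀ k, u k = 0 := by
      intro k
      have := hst.H3a k (u k) (by rw [htop]; trivial)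
      exact inner_self_eq_zero.mp this
    have h4 := hst.H4 0 le_rfl
    simp only [hu, norm_zero, mul_zero, zero_smul, add_zero] at h4
    exact not_tendsto_const_atBot _ _ h4
  | succ d ih =>
    intro E0 D u hst hdim
    obtain ⟨D2, D', u', hn, hE, hst'⟩ :=
      St.step T B l c a β K 𝒰 z hβ hno hzK hzβ hzJ E0 D u hst
    apply ih _ D' u' hst'
    have hD2 : D2 ≠ 0 := by
      intro h; rw [h, norm_zero] at hn; norm_num at hn
    have hinf : E0 ⊓ Submodule.span ℝ {D2} = ⊥ := by
      rw [Submodule.eq_bot_iff]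
      intro e he
      obtain ⟨he1, he2⟩ := Submodule.mem_inf.mp he
      obtain ⟨r, hr⟩ := Submodule.mem_span_singleton.mp he2
      have h1 := hE e he1
      rw [← hr, inner_smul_left, real_inner_self_eq_norm_sq, hn] at h1
      simp at h1
      rw [← hr, h1, zero_smul]
    have h2 := Submodule.finrank_sup_add_finrank_inf_eq E0 (Submodule.span ℝ {D2})
    rw [hinf, finrank_bot, finrank_span_singleton hD2] at h2
    omega

end chain

end Pool.Agent.Lib.MP_0e8110_lc
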