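import Mathlib
import Pool.Agent.Lib.MP_0e8110_lc.Chain

set_option autoImplicit false

open Filter Topology

namespace Pool.Agent.Lib.MP_0e8110_lc

section induct

variable {n : ℕ}
variable (T : EE n →L[ℝ] EE n →L[ℝ] EE n →L[ℝ] ℝ) (B : EE n →L[ℝ] EE n →L[ℝ] ℝ)
  (l : EE n →L[ℝ] ℝ) (c : ℝ)
variable {ι : Type*} [Fintype ι] (a : ι → (Fin n → ℤ)) (β : ι → ℝ)

/-- Core theorem at the base point `0`. -/
theorem core0 (K : Set ι) (z : ℕ → (Fin n → ℤ)) (hβ : ∀ j, β j ≤ 0)
    (hzK : ∀ j ∈ K, ∀ k, dz (a j) (ip (z k)) = 0)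
    (hzβ : ∀ j, ∀ k, β j ≤ dz (a j) (ip (z k)))
    (hzJ : ∀ j, j ∉ K → Tendsto (fun k => dz (a j) (ip (z k))) atTop atTop)
    (hfz : Tendsto (fun k => cub T B l c (ip (z k))) atTop atBot) :
    Thin a β K (cub T B l c) 0 := by
  by_contra hno
  set 𝒰 : Ultrafilter ℕ := Filter.hyperfilter ℕ with h𝒰
  have hle : (𝒰 : Filter ℕ) ≤ atTop := by
    rw [← Nat.cofinite_eq_atTop]
    exact Filter.hyperfilter_le_cofinite
  refine St.false T B l c a β K 𝒰 z hβ hno hzK hzβ (fun j hj => (hzJ j hj).mono_left hle)
    n ⊥ 0 (fun k => ip (z k)) ?_ (by rw [finrank_bot, zero_add])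
  refine ⟨?_, ?_, ?_, ?_, ?_, ?_, ?_, ?_, ?_⟩
  · intro m _ e he
    rw [Submodule.mem_bot] at he
    rw [he, map_zero]
  · intro j; simp
  · intro j _; simp
  · simp
  · intro v _; exact L3_zero_left T v
  · simp
  · intro k e he
    rw [Submodule.mem_bot] at he
    rw [he, inner_zero_left]
  · intro m _ k; rfl
  · intro A _
    have := hfz.mono_left hle
    simpa using this

/-- translation of a cubic function. -/
lemma cub_translate (p : EE n) : ∃ (B' : EE n →L[ℝ] EE n →L[ℝ] ℝ) (l' : EE n →L[ℝ] ℝ) (c' : ℝ),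
    ∀ x, cub T B l c (x + p) = cub T B' l' c' x := by
  refine ⟨B + T p + T.flip p +
    (ContinuousLinearMap.compL ℝ (EE n) (EE n →L[ℝ] ℝ) ℝ
      (ContinuousLinearMap.apply ℝ ℝ p)).comp T,
    l + B p + B.flip p + T p p + (T p).flip p + (T.flip p).flip p,
    c + l p + B p p + T p p p, fun x => ?_⟩
  simp only [cub, map_add, _root_.add_apply, ContinuousLinearMap.flip_apply,
    ContinuousLinearMap.comp_apply, ContinuousLinearMap.compL_apply,
    ContinuousLinearMap.apply_apply]
  ring

lemma ip_add (z w : Fin n → ℤ) : ip (z + w) = ip z + ip w := by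
  ext i; simp

/-- Core theorem at an arbitrary base point. -/
theorem core1 (K : Set ι) (z : ℕ → (Fin n → ℤ)) (γ : ι → ℝ)
    (hzK : ∀ j ∈ K, ∀ k, dz (a j) (ip (z k)) = γ j)
    (hzβ : ∀ j, ∀ k, β j ≤ dz (a j) (ip (z k)))
    (hzJ : ∀ j, j ∉ K → Tendsto (fun k => dz (a j) (ip (z k))) atTop atTop)
    (hfz : Tendsto (fun k => cub T B l c (ip (z k))) atTop atBot) :
    Thin a β K (cub T B l c) γ := by
  set z0 : Fin n → ℤ := z 0 with hz0
  obtain ⟨B', l', c', hT⟩ := cub_translate T B l c (ip z0)
  have hsub : ∀ k, ip (z k - z0) + ip z0 = ip (z k) := by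
    intro k
    rw [← ip_add, sub_add_cancel]
  have hsub' : ∀ k, ip (z k - z0) = ip (z k) - ip z0 := by
    intro k
    rw [← hsub k]; abel
  obtain ⟨y, d, hd0, hyβ, hyK, hdj, hdK, hthin⟩ :=
    core0 T B' l' c' a (fun j => β j - dz (a j) (ip z0)) K (fun k => z k - z0)
      (by intro j; have := hzβ j 0; rw [← hz0] at this; linarith)
      (by intro j hj k; rw [hsub', map_sub, hzK j hj k, hz0, hzK j hj 0, sub_self])
      (by intro j k; rw [hsub', map_sub]; have := hzβ j k; linarith)
      (by
        intro j hj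
        have := tendsto_atTop_add_const_right atTop (-(dz (a j) (ip z0))) (hzJ j hj)
        refine this.congr ?_
        intro k
        rw [hsub', map_sub]; ring)
      (by
        refine hfz.congr ?_
        intro k
        rw [← hT, hsub])
  refine ⟨y + ip z0, d, hd0, ?_, ?_, hdj, hdK, ?_⟩
  · intro j
    rw [map_add]
    have := hyβ j
    linarith
  · intro j hj
    rw [map_add, hyK j hj, hz0, hzK j hj 0]
    simp
  · intro ε hε M
    obtain ⟨w, hwβ, hwK, ⟨t, ht0, htε⟩, hwM⟩ := hthin ε hε M
    refine ⟨w + z0, ?_, ?_, ⟨t, ht0, ?_⟩, ?_⟩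
    · intro j
      rw [ip_add, map_add]
      have := hwβ j
      linarith
    · intro j hj
      rw [ip_add, map_add, hwK j hj, hz0, hzK j hj 0]
      simp
    · have : ip (w + z0) - (y + ip z0 + t • d) = ip w - (y + t • d) := by
        rw [ip_add]; abel
      rw [this]; exact htε
    · rw [ip_add, hT]; exact hwM

/-- Induction on the number of non-equality constraints. -/
theorem thin_of_unbounded : ∀ (k : ℕ) (K : Finset ι) (γ : ι → ℝ), Fintype.card ι = K.card + k →
    (∀ M : ℝ, ∃ z : Fin n → ℤ, (∀ j, β j ≤ dz (a j) (ip z)) ∧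
      (∀ j ∈ K, dz (a j) (ip z) = γ j) ∧ cub T B l c (ip z) < M) →
    Thin a β (K : Set ι) (cub T B l c) γ := by
  classical
  intro k
  induction k with
  | zero =>
    intro K γ hK hunb
    have huniv : K = Finset.univ := by
      apply Finset.eq_univ_of_card
      omega
    choose z hzβ hzK hzM using fun k : ℕ => hunb (-(k : ℝ))
    apply core1 T B l c a β (K : Set ι) z γ
    · intro j hj k; exact hzK k j hj
    · intro j k; exact hzβ k j
    · intro j hj
      exfalso
      apply hj
      rw [huniv]; simp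
    · apply tendsto_atBot_mono (fun k => (hzM k).le)
      exact tendsto_neg_atTop_atBot.comp tendsto_natCast_atTop_atTop
  | succ k ih =>
    intro K γ hK hunb
    by_cases hslice : ∃ j, j ∉ K ∧ ∃ v : ℤ, ∀ M : ℝ, ∃ z : Fin n → ℤ,
        (∀ i, β i ≤ dz (a i) (ip z)) ∧ (∀ i ∈ K, dz (a i) (ip z) = γ i) ∧
        dz (a j) (ip z) = v ∧ cub T B l c (ip z) < M
    · obtain ⟨j, hj, v, hv⟩ := hslice
      have h1 := ih (insert j K) (Function.update γ j v)
        (by rw [Finset.card_insert_of_notMem hj]; omega) (by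
          intro M
          obtain ⟨z, h1, h2, h3, h4⟩ := hv M
          refine ⟨z, h1, ?_, h4⟩
          intro i hi
          rw [Finset.mem_insert] at hi
          rcases hi with rfl | hi
          · rw [Function.update_self]; exact h3
          · have hij : i ≠ j := by rintro rfl; exact hj hi
            rw [Function.update_of_ne hij]
            exact h2 i hi)
      obtain ⟨y, d, hd0, hyβ, hyK, hdj, hdK, hthin⟩ := h1
      have hup : ∀ i ∈ (K : Set ι), Function.update γ j (v : ℝ) i = γ i := by
        intro i hi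
        have hij : i ≠ j := by rintro rfl; exact hj hi
        rw [Function.update_of_ne hij]
      have hmem : ∀ i ∈ (K : Set ι), i ∈ ((insert j K : Finset ι) : Set ι) := by
        intro i hi
        rw [Finset.coe_insert]
        exact Set.mem_insert_of_mem _ hi
      refine ⟨y, d, hd0, hyβ, ?_, hdj, ?_, ?_⟩
      · intro i hi
        rw [hyK i (hmem i hi), hup i hi]
      · intro i hi
        exact hdK i (hmem i hi)
      · intro ε hε M
        obtain ⟨w, hwβ, hwK, ht, hwM⟩ := hthin ε hε M
        refine ⟨w, hwβ, ?_, ht, hwM⟩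
        intro i hi
        rw [hwK i (hmem i hi), hup i hi]
    · push Not at hslice
      choose z hzβ hzK hzM using fun k : ℕ => hunb (-(k : ℝ))
      apply core1 T B l c a β (K : Set ι) z γ
      · intro j hj k; exact hzK k j hj
      · intro j k; exact hzβ k j
      · intro j hj
        have hj' : j ∉ K := hj
        rw [tendsto_atTop]
        intro R
        -- avoid all integer values between `β j` and `R`
        have h1 : ∀ v ∈ Finset.Icc ⌊β j⌋ ⌈R⌉, ∀ᶠ k in atTop, dz (a j) (ip (z k)) ≠ (v : ℝ) := by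
          intro v _
          obtain ⟨M, hM⟩ := hslice j hj' v
          filter_upwards [tendsto_natCast_atTop_atTop.eventually_ge_atTop (-M)] with k hk heq
          have h2 := hM (z k) (hzβ k) (hzK k) heq
          have h3 := hzM k
          linarith
        have h2 : ∀ᶠ k in atTop, ∀ v ∈ Finset.Icc ⌊β j⌋ ⌈R⌉,
            dz (a j) (ip (z k)) ≠ (v : ℝ) := by
          rw [Finset.eventually_all]
          exact h1
        filter_upwards [h2] with k hk
        by_contra hcon
        push Not at hcon
        obtain ⟨v, hv⟩ := dz_ip_int (a j) (z k)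
        apply hk v _ hv
        rw [Finset.mem_Icc]
        constructor
        · have h3 := hzβ k j
          rw [hv] at h3
          have h4 : (⌊β j⌋ : ℝ) ≤ v := (Int.floor_le _).trans h3
          exact_mod_cast h4
        · rw [hv] at hcon
          have h4 : (v : ℝ) ≤ ⌈R⌉ := hcon.le.trans (Int.le_ceil R)
          exact_mod_cast h4
      · apply tendsto_atBot_mono (fun k => (hzM k).le)
        exact tendsto_neg_atTop_atBot.comp tendsto_natCast_atTop_atTop

end induct

end Pool.Agent.Lib.MP_0e8110_lc
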