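import Mathlib
import Pool.Agent.Lib.MP_0e8110_lc.Induct

set_option autoImplicit false
set_option synthInstance.maxHeartbeats 400000

open Filter Topology

namespace Pool.Agent.Lib.MP_0e8110_lc

section poly

variable {n : ℕ}

def R0 (g : EE n → ℝ) : Prop := ∃ c : ℝ, ∀ x, g x = c
def R1 (g : EE n → ℝ) : Prop := ∃ (l : EE n →L[ℝ] ℝ) (c : ℝ), ∀ x, g x = l x + c
def R2 (g : EE n → ℝ) : Prop :=
  ∃ (B : EE n →L[ℝ] EE n →L[ℝ] ℝ) (l : EE n →L[ℝ] ℝ) (c : ℝ), ∀ x, g x = B x x + l x + c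
def R3 (g : EE n → ℝ) : Prop :=
  ∃ (T : EE n →L[ℝ] EE n →L[ℝ] EE n →L[ℝ] ℝ) (B : EE n →L[ℝ] EE n →L[ℝ] ℝ)
    (l : EE n →L[ℝ] ℝ) (c : ℝ), ∀ x, g x = cub T B l c x

lemma R1_of_R0 {g : EE n → ℝ} (h : R0 g) : R1 g := by
  obtain ⟨c, h⟩ := h
  exact ⟨0, c, fun x => by simp [h]⟩

lemma R2_of_R1 {g : EE n → ℝ} (h : R1 g) : R2 g := by
  obtain ⟨l, c, h⟩ := h
  exact ⟨0, l, c, fun x => by simp [h]⟩

lemma R3_of_R2 {g : EE n → ℝ} (h : R2 g) : R3 g := by
  obtain ⟨B, l, c, h⟩ := h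
  exact ⟨0, B, l, c, fun x => by simp [h, cub]⟩

lemma proj_ap (i : Fin n) (x : EE n) : (EuclideanSpace.proj i : EE n →L[ℝ] ℝ) x = x i := rfl

lemma R1_mul {g : EE n → ℝ} (i : Fin n) (h : R0 g) : R1 (fun x => x i * g x) := by
  obtain ⟨c, h⟩ := h
  refine ⟨c • EuclideanSpace.proj i, 0, fun x => ?_⟩
  simp only [h, _root_.smul_apply, smul_eq_mul]
  rw [proj_ap]
  ring

lemma R2_mul {g : EE n → ℝ} (i : Fin n) (h : R1 g) : R2 (fun x => x i * g x) := by
  obtain ⟨l, c, h⟩ := h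
  refine ⟨(EuclideanSpace.proj i : EE n →L[ℝ] ℝ).smulRight l, c • EuclideanSpace.proj i, 0,
    fun x => ?_⟩
  simp only [h, _root_.smul_apply, smul_eq_mul, ContinuousLinearMap.smulRight_apply]
  rw [proj_ap]
  ring

lemma R3_mul {g : EE n → ℝ} (i : Fin n) (h : R2 g) : R3 (fun x => x i * g x) := by
  obtain ⟨B, l, c, h⟩ := h
  refine ⟨(EuclideanSpace.proj i : EE n →L[ℝ] ℝ).smulRight B,
    (EuclideanSpace.proj i : EE n →L[ℝ] ℝ).smulRight l, c • EuclideanSpace.proj i, 0,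
    fun x => ?_⟩
  simp only [h, cub, _root_.smul_apply, smul_eq_mul, ContinuousLinearMap.smulRight_apply]
  rw [proj_ap]
  ring

lemma R3_add {g h : EE n → ℝ} (hg : R3 g) (hh : R3 h) : R3 (fun x => g x + h x) := by
  obtain ⟨T, B, l, c, hg⟩ := hg
  obtain ⟨T', B', l', c', hh⟩ := hh
  have : ContinuousAdd (EE n →L[ℝ] EE n →L[ℝ] ℝ) :=
    (inferInstance : IsTopologicalAddGroup (EE n →L[ℝ] EE n →L[ℝ] ℝ)).toContinuousAdd
  refine ⟨T + T', B + B', l + l', c + c', fun x => ?_⟩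
  simp only [hg, hh, cub, _root_.add_apply]
  ring

lemma R3_smul {g : EE n → ℝ} (r : ℝ) (hg : R3 g) : R3 (fun x => r * g x) := by
  obtain ⟨T, B, l, c, hg⟩ := hg
  refine ⟨r • T, r • B, r • l, r * c, fun x => ?_⟩
  simp only [hg, cub, _root_.smul_apply, smul_eq_mul]
  ring

lemma R3_zero : R3 (fun _ : EE n => (0 : ℝ)) :=
  ⟨0, 0, 0, 0, fun x => by simp [cub]⟩

lemma R3_sum {α : Type*} (s : Finset α) (g : α → EE n → ℝ) (h : ∀ i ∈ s, R3 (g i)) :
    R3 (fun x => ∑ i ∈ s, g i x) := by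
  classical
  induction s using Finset.induction_on with
  | empty => simpa using R3_zero
  | insert i s hi ih =>
    simp only [Finset.sum_insert hi]
    exact R3_add (h i (Finset.mem_insert_self _ _))
      (ih (fun j hj => h j (Finset.mem_insert_of_mem hj)))

/-- value of the monomial `m`. -/
noncomputable def mv (m : Fin n →₀ ℕ) (x : EE n) : ℝ := ∏ i, x i ^ m i

lemma mono_step (m : Fin n →₀ ℕ) (hm : m ≠ 0) : ∃ (i : Fin n) (m' : Fin n →₀ ℕ),
    (∀ x : EE n, mv m x = x i * mv m' x) ∧ m.degree = m'.degree + 1 := by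
  classical
  obtain ⟨i, hi⟩ := Finsupp.ne_iff.mp hm
  have hi' : m i ≠ 0 := by simpa using hi
  have hle : Finsupp.single i 1 ≤ m := by
    rw [Finsupp.single_le_iff]; omega
  obtain ⟨m', rfl⟩ := exists_add_of_le hle
  refine ⟨i, m', ?_, ?_⟩
  · intro x
    unfold mv
    rw [← Finset.mul_prod_erase Finset.univ _ (Finset.mem_univ i),
      ← Finset.mul_prod_erase Finset.univ (fun j => x j ^ m' j) (Finset.mem_univ i), ← mul_assoc]
    congr 1
    · simp only [Finsupp.add_apply, Finsupp.single_eq_same]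
      rw [pow_add, pow_one]
    · apply Finset.prod_congr rfl
      intro j hj
      have hji : j ≠ i := Finset.ne_of_mem_erase hj
      simp [hji.symm]
  · rw [map_add, Finsupp.degree_single]; ring

lemma mono0 (m : Fin n →₀ ℕ) (hm : m = 0) : R0 (mv m) := by
  subst hm
  exact ⟨1, fun x => by simp [mv]⟩

lemma mono1 (m : Fin n →₀ ℕ) (hm : m.degree ≤ 1) : R1 (mv m) := by
  by_cases h0 : m = 0
  · exact R1_of_R0 (mono0 m h0)
  · obtain ⟨i, m', h1, h2⟩ := mono_step m h0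
    have h3 : m' = 0 := by
      have : m'.degree = 0 := by omega
      exact (Finsupp.degree_eq_zero_iff m').mp this
    have := R1_mul i (mono0 m' h3)
    obtain ⟨l, c, h⟩ := this
    exact ⟨l, c, fun x => by rw [h1, ← h x]⟩

lemma mono2 (m : Fin n →₀ ℕ) (hm : m.degree ≤ 2) : R2 (mv m) := by
  by_cases h0 : m = 0
  · exact R2_of_R1 (R1_of_R0 (mono0 m h0))
  · obtain ⟨i, m', h1, h2⟩ := mono_step m h0
    obtain ⟨B, l, c, h⟩ := R2_mul i (mono1 m' (by omega))
    exact ⟨B, l, c, fun x => by rw [h1, ← h x]⟩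

lemma mono3 (m : Fin n →₀ ℕ) (hm : m.degree ≤ 3) : R3 (mv m) := by
  by_cases h0 : m = 0
  · exact R3_of_R2 (R2_of_R1 (R1_of_R0 (mono0 m h0)))
  · obtain ⟨i, m', h1, h2⟩ := mono_step m h0
    obtain ⟨T, B, l, c, h⟩ := R3_mul i (mono2 m' (by omega))
    exact ⟨T, B, l, c, fun x => by rw [h1, ← h x]⟩

/-- every polynomial of degree at most three is a cubic function. -/
theorem poly_R3 (f : MvPolynomial (Fin n) ℝ) (hf : f.totalDegree ≤ 3) :
    R3 (fun x : EE n => MvPolynomial.eval (fun i => x i) f) := by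
  have h1 : ∀ x : EE n, MvPolynomial.eval (fun i => x i) f =
      ∑ m ∈ f.support, f.coeff m * mv m x := by
    intro x
    rw [MvPolynomial.eval_eq']
    rfl
  simp only [h1]
  apply R3_sum
  intro m hm
  apply R3_smul
  apply mono3
  have h2 := MvPolynomial.le_totalDegree hm
  have h3 : m.degree = m.sum (fun _ e => e) := rfl
  omega

/-- clearing denominators in one row. -/
lemma clear_denoms (q : Fin n → ℚ) : ∃ N : ℕ, 0 < N ∧ ∀ j, ∃ k : ℤ, (N : ℚ) * q j = k := by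
  classical
  refine ⟨∏ j, (q j).den, Finset.prod_pos (fun j _ => (q j).den_pos), fun j => ?_⟩
  obtain ⟨t, ht⟩ := Finset.dvd_prod_of_mem (fun j => (q j).den) (Finset.mem_univ j)
  refine ⟨t * (q j).num, ?_⟩
  rw [ht]
  push_cast
  have := Rat.mul_den_eq_num (q j)
  calc ((q j).den : ℚ) * t * q j = t * (q j * (q j).den) := by ring
    _ = t * (q j).num := by rw [this]

end poly

end Pool.Agent.Lib.MP_0e8110_lc
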